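import Pool.Agent.X62.EK.Lim

/-! The theorem of Erdős and Kac. -/

set_option autoImplicit false

namespace Pool.Agent.X62.EK

open Finset Filter Topology MeasureTheory ProbabilityTheory
open scoped ENNReal

/-- the uniform measure on the values of `F` at `1, ..., N + 1` -/
noncomputable def em (F : ℕ → ℝ) (N : ℕ) : Measure ℝ :=
  ((N : ℝ≥0∞) + 1)⁻¹ • ∑ n ∈ Icc 1 (N + 1), Measure.dirac (F n)

theorem em_apply (F : ℕ → ℝ) (N : ℕ) {S : Set ℝ} (hS : MeasurableSet S) :
    em F N S = ENNReal.ofReal (({n : ℕ | 1 ≤ n ∧ n ≤ N + 1 ∧ F n ∈ S}.ncard : ℝ) / ((N : ℝ) + 1)) := by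
  classical
  unfold em
  rw [Measure.smul_apply, Measure.finsetSum_apply]
  have h1 : ∀ n, Measure.dirac (F n) S = if F n ∈ S then 1 else 0 := by
    intro n
    rw [Measure.dirac_apply' _ hS, Set.indicator_apply]
    rfl
  simp only [h1]
  rw [← sum_filter, sum_const, nsmul_eq_mul, mul_one]
  have e : {n : ℕ | 1 ≤ n ∧ n ≤ N + 1 ∧ F n ∈ S} = ((Icc 1 (N + 1)).filter (fun n => F n ∈ S) : Finset ℕ) := by
    ext n
    rw [mem_coe, mem_filter, mem_Icc]
    simp only [Set.mem_ofPred_eq]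
    tauto
  rw [e, Set.ncard_coe_finset, smul_eq_mul, div_eq_inv_mul, ENNReal.ofReal_mul (by positivity),
    ENNReal.ofReal_natCast, ENNReal.ofReal_inv_of_pos (by positivity), ENNReal.ofReal_add (by positivity) (by norm_num),
    ENNReal.ofReal_natCast, ENNReal.ofReal_one]

instance em_prob (F : ℕ → ℝ) (N : ℕ) : IsProbabilityMeasure (em F N) := by
  constructor
  rw [em_apply F N MeasurableSet.univ]
  have : {n : ℕ | 1 ≤ n ∧ n ≤ N + 1 ∧ F n ∈ (Set.univ : Set ℝ)} = ((Icc 1 (N + 1)) : Finset ℕ) := by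
    ext n
    rw [mem_coe, mem_Icc]
    simp
  rw [this, Set.ncard_coe_finset, Nat.card_Icc, Nat.add_sub_cancel]
  push_cast
  rw [div_self (by positivity), ENNReal.ofReal_one]

theorem em_char (F : ℕ → ℝ) (N : ℕ) (t : ℝ) : charFun (em F N) t =
    (∑ n ∈ Icc 1 (N + 1), Complex.exp (Complex.I * ((t * F n : ℝ) : ℂ))) / ((N : ℂ) + 1) := by
  rw [charFun_apply_real]
  unfold em
  rw [integral_smul_measure, integral_finsetSum_measure (fun n _ => by
    apply integrable_dirac
    exact ENNReal.coe_lt_top)]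
  simp only [integral_dirac]
  have : (((N : ℝ≥0∞) + 1)⁻¹).toReal = ((N : ℝ) + 1)⁻¹ := by
    rw [ENNReal.toReal_inv, ENNReal.toReal_add (by simp) (by simp)]
    simp
  rw [this, Complex.real_smul, div_eq_inv_mul]
  push_cast
  congr 1
  apply sum_congr rfl
  intro n _
  congr 1
  ring

/-- the normalised number of prime factors -/
noncomputable def nrm (N n : ℕ) : ℝ := ((n.primeFactors.card : ℝ) - LL N) / Real.sqrt (LL N)

noncomputable def Phi (y : ℝ) : ℝ := cdf (gaussianReal 0 1) y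

noncomputable def pm (N : ℕ) : ProbabilityMeasure ℝ := ⟨em (nrm (N + 1)) N, em_prob _ _⟩

noncomputable def gs : ProbabilityMeasure ℝ := ⟨gaussianReal 0 1, inferInstance⟩

theorem pm_conv : Tendsto pm atTop (𝓝 gs) := by
  rw [ProbabilityMeasure.tendsto_iff_tendsto_charFun]
  intro τ
  have h1 := (char_lim τ).comp (tendsto_add_atTop_nat 1)
  have e : charFun (gs : Measure ℝ) τ =
      Complex.exp (-(τ : ℂ) ^ 2 / 2) := by
    show charFun (gaussianReal 0 1) τ = _
    rw [charFun_gaussianReal]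
    congr 1
    push_cast
    ring
  rw [e]
  refine h1.congr fun N => ?_
  show _ = charFun (em (nrm (N + 1)) N) τ
  rw [em_char]
  simp only [Function.comp]
  push_cast
  congr 1
  apply sum_congr rfl
  intro n _
  congr 2
  unfold nrm th
  push_cast
  ring

theorem ek_shift (y : ℝ) : Tendsto (fun N : ℕ => ({n : ℕ | 1 ≤ n ∧ n ≤ N + 1 ∧ nrm (N + 1) n ≤ y}.ncard : ℝ) /
    ((N : ℝ) + 1)) atTop (𝓝 (Phi y)) := by
  have h1 := ProbabilityMeasure.tendsto_measure_of_null_frontier_of_tendsto' pm_conv (E := Set.Iic y) (by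
    show gaussianReal 0 1 (frontier (Set.Iic y)) = 0
    rw [frontier_Iic]
    haveI := noAtoms_gaussianReal (μ := 0) (v := 1) one_ne_zero
    exact measure_singleton _)
  have h2 := (ENNReal.tendsto_toReal (measure_ne_top _ _)).comp h1
  have e : (((gs : Measure ℝ) (Set.Iic y))).toReal = Phi y := by
    unfold Phi
    rw [cdf_eq_real]
    rfl
  rw [e] at h2
  refine h2.congr fun N => ?_
  show (em (nrm (N + 1)) N (Set.Iic y)).toReal = _
  rw [em_apply _ _ measurableSet_Iic, ENNReal.toReal_ofReal (by positivity)]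
  rfl

/-- THE THEOREM OF ERDŐS AND KAC -/
theorem ek (y : ℝ) : Tendsto (fun N : ℕ => ({n : ℕ | 1 ≤ n ∧ n ≤ N ∧
    (n.primeFactors.card : ℝ) ≤ Real.log (Real.log N) + y * Real.sqrt (Real.log (Real.log N))}.ncard : ℝ) / N)
    atTop (𝓝 (Phi y)) := by
  rw [← tendsto_add_atTop_iff_nat 1]
  refine (ek_shift y).congr' ?_
  filter_upwards [(tL.comp (tendsto_add_atTop_nat 1)).eventually_gt_atTop 0] with N hN
  simp only [Function.comp] at hN
  have hs : 0 < Real.sqrt (LL (N + 1)) := Real.sqrt_pos.2 hN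
  push_cast
  congr 2
  congr 1
  ext n
  simp only [Set.mem_ofPred_eq]
  have : nrm (N + 1) n ≤ y ↔ (n.primeFactors.card : ℝ) ≤ Real.log (Real.log ((N : ℝ) + 1)) +
      y * Real.sqrt (Real.log (Real.log ((N : ℝ) + 1))) := by
    unfold nrm
    rw [div_le_iff₀ hs, sub_le_iff_le_add, add_comm]
    unfold LL
    push_cast
    rfl
  rw [this]

end Pool.Agent.X62.EK
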