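import Mathlib

/-! Products of periodic functions over primes: the fundamental estimate. -/

set_option autoImplicit false

namespace Pool.Agent.X62.EK

open Finset

theorem sum_crt {R : Type*} [CommSemiring R] {P q : ℕ} (hP : 0 < P) (hq : 0 < q) (hco : P.Coprime q)
    {F G : ℕ → R} (hF : Function.Periodic F P) (hG : Function.Periodic G q) :
    ∑ m ∈ range (P * q), F m * G m = (∑ a ∈ range P, F a) * ∑ b ∈ range q, G b := by
  rw [sum_mul_sum, ← sum_product']
  refine sum_nbij' (fun m => (m % P, m % q)) (fun ab => (Nat.chineseRemainder hco ab.1 ab.2 : ℕ)) ?_ ?_ ?_ ?_ ?_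
  · intro m hm
    rw [mem_product, mem_range, mem_range]
    exact ⟨Nat.mod_lt _ hP, Nat.mod_lt _ hq⟩
  · intro ab _
    rw [mem_range]
    exact Nat.chineseRemainder_lt_mul hco _ _ hP.ne' hq.ne'
  · intro m hm
    rw [mem_range] at hm
    have h1 := (Nat.chineseRemainder hco (m % P) (m % q)).2
    have h2 : (Nat.chineseRemainder hco (m % P) (m % q) : ℕ) ≡ m [MOD P * q] := by
      rw [← Nat.modEq_and_modEq_iff_modEq_mul hco]
      exact ⟨h1.1.trans (Nat.mod_modEq _ _), h1.2.trans (Nat.mod_modEq _ _)⟩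
    have h3 := Nat.chineseRemainder_lt_mul hco (m % P) (m % q) hP.ne' hq.ne'
    unfold Nat.ModEq at h2
    rwa [Nat.mod_eq_of_lt h3, Nat.mod_eq_of_lt hm] at h2
  · rintro ⟨a, b⟩ hab
    rw [mem_product, mem_range, mem_range] at hab
    have h1 := (Nat.chineseRemainder hco a b).2
    unfold Nat.ModEq at h1
    ext
    · simp only
      rw [h1.1, Nat.mod_eq_of_lt hab.1]
    · simp only
      rw [h1.2, Nat.mod_eq_of_lt hab.2]
  · intro m _
    simp only
    rw [hF.map_mod_nat, hG.map_mod_nat]

theorem prod_per {R : Type*} [CommSemiring R] {S : Finset ℕ} (hS : ∀ p ∈ S, p.Prime) {w : ℕ → ℕ → R}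
    (hw : ∀ p ∈ S, Function.Periodic (w p) p) : Function.Periodic (fun m => ∏ p ∈ S, w p m) (∏ p ∈ S, p) ∧
    ∑ m ∈ range (∏ p ∈ S, p), ∏ p ∈ S, w p m = ∏ p ∈ S, ∑ a ∈ range p, w p a := by
  classical
  induction S using Finset.induction_on with
  | empty => simp [Function.Periodic]
  | insert q S hq ih =>
    have ih' := ih (fun p hp => hS p (mem_insert_of_mem hp)) (fun p hp => hw p (mem_insert_of_mem hp))
    have hqp := hS q (mem_insert_self _ _)
    have hqw := hw q (mem_insert_self _ _)
    have hP : 0 < ∏ p ∈ S, p := prod_pos fun p hp => (hS p (mem_insert_of_mem hp)).pos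
    have hco : Nat.Coprime (∏ p ∈ S, p) q := by
      apply Nat.Coprime.prod_left
      intro p hp
      rw [Nat.coprime_primes (hS p (mem_insert_of_mem hp)) hqp]
      rintro rfl
      exact hq hp
    have e1 : ∏ p ∈ insert q S, p = (∏ p ∈ S, p) * q := by rw [prod_insert hq, mul_comm]
    have e2 : (fun m => ∏ p ∈ insert q S, w p m) = fun m => (∏ p ∈ S, w p m) * w q m := by
      funext m
      rw [prod_insert hq, mul_comm]
    constructor
    · rw [e1, e2]
      intro m
      have h1 : (∏ p ∈ S, w p (m + (∏ p ∈ S, p) * q)) = ∏ p ∈ S, w p m := by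
        have := (ih'.1.nat_mul q) m
        rw [mul_comm] at this
        exact this
      have h2 : w q (m + (∏ p ∈ S, p) * q) = w q m := (hqw.nat_mul (∏ p ∈ S, p)) m
      show (∏ p ∈ S, w p (m + (∏ p ∈ S, p) * q)) * w q (m + (∏ p ∈ S, p) * q) = (∏ p ∈ S, w p m) * w q m
      rw [h1, h2]
    · rw [e1]
      have e3 : ∑ m ∈ range ((∏ p ∈ S, p) * q), ∏ p ∈ insert q S, w p m =
          ∑ m ∈ range ((∏ p ∈ S, p) * q), (∏ p ∈ S, w p m) * w q m :=
        sum_congr rfl fun m _ => by rw [prod_insert hq, mul_comm]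
      rw [e3, sum_crt hP hqp.pos hco ih'.1 hqw, ih'.2, prod_insert hq, mul_comm]

/-- sums of periodic functions over an initial segment -/
theorem sum_seg {P : ℕ} (hP : 0 < P) {F : ℕ → ℂ} (hF : Function.Periodic F P) (M : ℕ) :
    ‖∑ m ∈ range M, F m - (M / P : ℝ) * ∑ a ∈ range P, F a‖ ≤ ∑ a ∈ range P, ‖F a‖ := by
  have hper : ∀ Q : ℕ, ∑ m ∈ range (P * Q), F m = Q * ∑ a ∈ range P, F a := by
    intro Q
    induction Q with
    | zero => simp
    | succ Q ih =>
      rw [Nat.mul_succ, sum_range_add, ih]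
      have : ∑ x ∈ range P, F (P * Q + x) = ∑ a ∈ range P, F a := by
        refine sum_congr rfl fun x _ => ?_
        rw [add_comm, mul_comm]
        exact (hF.nat_mul Q) x
      rw [this]
      push_cast
      ring
  set r := M % P with hr
  have hrP : r < P := Nat.mod_lt _ hP
  have hM : M = P * (M / P) + r := (Nat.div_add_mod M P).symm
  have e1 : ∑ m ∈ range M, F m = (M / P : ℕ) * ∑ a ∈ range P, F a + ∑ a ∈ range r, F a := by
    conv_lhs => rw [hM]
    rw [sum_range_add, hper]
    congr 1
    refine sum_congr rfl fun x _ => ?_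
    rw [add_comm, mul_comm]
    exact (hF.nat_mul (M / P)) x
  have hP0 : (0 : ℝ) < P := by exact_mod_cast hP
  have e2 : (M / P : ℝ) = (M / P : ℕ) + r / P := by
    have : (M : ℝ) = P * (M / P : ℕ) + r := by exact_mod_cast hM
    field_simp
    linarith
  have e3 : ∑ m ∈ range M, F m - ((M / P : ℝ) : ℂ) * ∑ a ∈ range P, F a =
      ∑ a ∈ range P, (((if a < r then 1 else 0) - r / P : ℝ) : ℂ) * F a := by
    rw [e1, e2]
    have e4 : ∑ a ∈ range r, F a = ∑ a ∈ range P, (if a < r then F a else 0) := by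
      rw [← sum_filter]
      congr 1
      ext a
      rw [mem_filter, mem_range, mem_range]
      omega
    rw [e4]
    have e5 : ∑ a ∈ range P, (((if a < r then 1 else 0) - r / P : ℝ) : ℂ) * F a =
        ∑ a ∈ range P, (if a < r then F a else 0) - (r / P : ℂ) * ∑ a ∈ range P, F a := by
      rw [mul_sum, ← sum_sub_distrib]
      refine sum_congr rfl fun a _ => ?_
      split_ifs <;> push_cast <;> ring
    rw [e5]
    push_cast
    ring
  rw [e3]
  refine (norm_sum_le _ _).trans (sum_le_sum fun a _ => ?_)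
  rw [norm_mul, Complex.norm_real, Real.norm_eq_abs]
  have h1 : (0 : ℝ) ≤ r / P := by positivity
  have h2 : (r : ℝ) / P ≤ 1 := by
    rw [div_le_one hP0]
    exact_mod_cast hrP.le
  have h3 : |(if a < r then 1 else 0) - (r : ℝ) / P| ≤ 1 := by
    rw [abs_le]
    split_ifs <;> constructor <;> linarith
  calc _ ≤ 1 * ‖F a‖ := mul_le_mul_of_nonneg_right h3 (norm_nonneg _)
    _ = _ := one_mul _

/-- elementary symmetric sums -/
noncomputable def es {R : Type*} [CommSemiring R] (w : ℕ → R) (j : ℕ) (T : Finset ℕ) : R :=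
  ∑ S ∈ powersetCard j T, ∏ p ∈ S, w p

theorem es_zero {R : Type*} [CommSemiring R] (w : ℕ → R) (T : Finset ℕ) : es w 0 T = 1 := by
  simp [es]

theorem es_insert {R : Type*} [CommSemiring R] (w : ℕ → R) (j : ℕ) {q : ℕ} {T : Finset ℕ} (hq : q ∉ T) :
    es w (j + 1) (insert q T) = es w (j + 1) T + w q * es w j T := by
  classical
  unfold es
  rw [powersetCard_succ_insert hq, sum_union]
  · congr 1
    rw [sum_image]
    · rw [mul_sum]
      refine sum_congr rfl fun S hS => ?_
      have hqS : q ∉ S := fun h => hq ((mem_powersetCard.1 hS).1 h)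
      rw [prod_insert hqS]
    · intro S hS S' hS' h
      have hqS : q ∉ S := fun h => hq ((mem_powersetCard.1 (mem_coe.1 hS)).1 h)
      have hqS' : q ∉ S' := fun h => hq ((mem_powersetCard.1 (mem_coe.1 hS')).1 h)
      have := congrArg (fun U => U.erase q) h
      simpa [erase_insert hqS, erase_insert hqS'] using this
  · rw [disjoint_left]
    intro S hS hS'
    obtain ⟨S', _, rfl⟩ := mem_image.1 hS'
    exact hq ((mem_powersetCard.1 hS).1 (mem_insert_self _ _))

/-- the remainder of the expansion of a product of numbers of the unit disc -/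
theorem expand {w : ℕ → ℂ} {T : Finset ℕ} (hw : ∀ p ∈ T, ‖1 + w p‖ ≤ 1) :
    ∀ j : ℕ, ‖∏ p ∈ T, (1 + w p) - ∑ i ∈ range j, es w i T‖ ≤ es (fun p => ‖w p‖) j T := by
  classical
  induction T using Finset.induction_on with
  | empty =>
    intro j
    cases j with
    | zero => simp [es]
    | succ j =>
      have h1 : ∀ i ∈ range (j + 1), i ≠ 0 → es w i (∅ : Finset ℕ) = 0 := by
        intro i _ hi
        unfold es
        rw [powersetCard_eq_empty.2 (by rw [card_empty]; omega)]
        simp
      rw [sum_eq_single 0 h1 (by simp), es_zero]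
      simp only [prod_empty, sub_self, norm_zero]
      unfold es
      exact sum_nonneg fun S _ => prod_nonneg fun _ _ => norm_nonneg _
  | insert q T hq ih =>
    have ih' := ih fun p hp => hw p (mem_insert_of_mem hp)
    intro j
    cases j with
    | zero =>
      rw [range_zero, sum_empty, sub_zero, es_zero, norm_prod]
      exact prod_le_one (fun _ _ => norm_nonneg _) hw
    | succ j =>
      have e1 : ∑ i ∈ range (j + 1), es w i (insert q T) = ∑ i ∈ range (j + 1), es w i T +
          w q * ∑ i ∈ range j, es w i T := by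
        rw [sum_range_succ', sum_range_succ', es_zero, es_zero, mul_sum]
        rw [sum_congr rfl fun i _ => es_insert w i hq, sum_add_distrib]
        ring
      rw [prod_insert hq, e1, es_insert _ j hq]
      have e2 : (1 + w q) * ∏ p ∈ T, (1 + w p) - (∑ i ∈ range (j + 1), es w i T + w q * ∑ i ∈ range j, es w i T) =
          (∏ p ∈ T, (1 + w p) - ∑ i ∈ range (j + 1), es w i T) +
            w q * (∏ p ∈ T, (1 + w p) - ∑ i ∈ range j, es w i T) := by ring
      rw [e2]
      refine (norm_add_le _ _).trans (add_le_add (ih' (j + 1)) ?_)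
      rw [norm_mul]
      exact mul_le_mul_of_nonneg_left (ih' j) (norm_nonneg _)

/-- Rankin's bound for the elementary symmetric sums -/
theorem es_le {x : ℕ → ℝ} {T : Finset ℕ} (hx : ∀ p ∈ T, 0 ≤ x p) (j : ℕ) {t : ℝ} (ht : 0 < t) :
    es x j T ≤ Real.exp (t * ∑ p ∈ T, x p) / t ^ j := by
  classical
  rw [le_div_iff₀ (by positivity)]
  have h1 : es x j T * t ^ j = ∑ S ∈ powersetCard j T, ∏ p ∈ S, (t * x p) := by
    unfold es
    rw [sum_mul]
    refine sum_congr rfl fun S hS => ?_
    rw [prod_mul_distrib, prod_const, (mem_powersetCard.1 hS).2, mul_comm]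
  rw [h1]
  calc ∑ S ∈ powersetCard j T, ∏ p ∈ S, (t * x p) ≤ ∑ S ∈ T.powerset, ∏ p ∈ S, (t * x p) := by
        apply sum_le_sum_of_subset_of_nonneg
        · intro S hS
          exact mem_powerset.2 (mem_powersetCard.1 hS).1
        · intro S hS _
          exact prod_nonneg fun p hp => mul_nonneg ht.le (hx p (mem_powerset.1 hS hp))
    _ = ∏ p ∈ T, (t * x p + 1) := by
        rw [prod_add]
        refine sum_congr rfl fun S _ => ?_
        simp
    _ ≤ ∏ p ∈ T, Real.exp (t * x p) := prod_le_prod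
        (fun p hp => by have := hx p hp; positivity) (fun p _ => Real.add_one_le_exp _)
    _ = Real.exp (t * ∑ p ∈ T, x p) := by rw [← Real.exp_sum, mul_sum]

theorem card_small (n j : ℕ) : ∑ i ∈ range (j + 1), n.choose i ≤ (n + 1) ^ j := by
  induction j with
  | zero => simp
  | succ j ih =>
    rw [sum_range_succ, pow_succ]
    have h1 : n.choose (j + 1) ≤ n ^ (j + 1) := Nat.choose_le_pow n (j + 1)
    have h2 : n ^ (j + 1) ≤ (n + 1) ^ j * n := by
      rw [pow_succ]
      exact Nat.mul_le_mul_right _ (Nat.pow_le_pow_left (by omega) _)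
    calc _ ≤ (n + 1) ^ j + (n + 1) ^ j * n := by omega
      _ = (n + 1) ^ j * (n + 1) := by ring

end Pool.Agent.X62.EK
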