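import Pool.Agent.X62.EK.Forms
import Pool.Agent.Erdos456.Mertens

/-! The characteristic function of the normalised number of prime factors. -/

set_option autoImplicit false

namespace Pool.Agent.X62.EK

open Finset Filter Topology

/-- the primes up to `n` -/
def P1 (n : ℕ) : Finset ℕ := (Icc 1 n).filter Nat.Prime

theorem mem_P1 {n p : ℕ} : p ∈ P1 n ↔ p.Prime ∧ p ≤ n := by
  unfold P1
  rw [mem_filter, mem_Icc]
  constructor
  · rintro ⟨⟨_, h⟩, h'⟩; exact ⟨h', h⟩
  · rintro ⟨h, h'⟩; exact ⟨⟨h.one_lt.le, h'⟩, h⟩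

noncomputable def LL (N : ℕ) : ℝ := Real.log (Real.log N)

noncomputable def yy (N : ℕ) : ℕ := ⌊Real.exp (Real.log N / (4 * LL N))⌋₊

noncomputable def WW (N : ℕ) : ℝ := ∑ p ∈ P1 (yy N), (1 : ℝ) / p

theorem tl : Tendsto (fun N : ℕ => Real.log (N : ℝ)) atTop atTop :=
  Real.tendsto_log_atTop.comp tendsto_natCast_atTop_atTop

theorem tL : Tendsto LL atTop atTop := Real.tendsto_log_atTop.comp tl

theorem t_log_sqrt : Tendsto (fun L : ℝ => Real.log L / Real.sqrt L) atTop (𝓝 0) := by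
  have := (isLittleO_log_rpow_atTop (show (0 : ℝ) < 1 / 2 by norm_num)).tendsto_div_nhds_zero
  refine this.congr fun L => ?_
  rw [Real.sqrt_eq_rpow]

theorem sum_P1 : ∃ C : ℝ, 0 ≤ C ∧ ∀ᶠ N : ℕ in atTop,
    (yy N ≤ N ∧ |WW N - LL N| ≤ C + Real.log (LL N)) ∧
    (∑ p ∈ P1 N \ P1 (yy N), (1 : ℝ) / p ≤ C + Real.log (LL N)) ∧
    (((yy N : ℝ) + 1) ≤ Real.exp (Real.log N / (4 * LL N) + 1)) := by
  obtain ⟨C, hC⟩ := Pool.Agent.Erdos456.Mert.mertens_inv
  have hC0 : 0 ≤ C := (abs_nonneg _).trans (hC 3 le_rfl)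
  have tx : Tendsto (fun N : ℕ => Real.log N / (4 * LL N)) atTop atTop := by
    have h1 : Tendsto (fun x : ℝ => x / Real.log x) atTop atTop := by
      have h1 := Real.isLittleO_log_id_atTop.tendsto_div_nhds_zero
      have h2 : Tendsto (fun x : ℝ => (Real.log x / x)⁻¹) atTop atTop := by
        apply Tendsto.inv_tendsto_nhdsGT_zero
        rw [tendsto_nhdsWithin_iff]
        refine ⟨h1, ?_⟩
        filter_upwards [eventually_gt_atTop (1 : ℝ)] with x hx
        exact div_pos (Real.log_pos hx) (by linarith)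
      refine h2.congr fun x => ?_
      rw [inv_div]
    have h3 := (h1.comp tl).const_mul_atTop (show (0 : ℝ) < 1 / 4 by norm_num)
    refine h3.congr fun N => ?_
    simp only [Function.comp, LL]
    ring
  refine ⟨2 * C + 5, by linarith, ?_⟩
  filter_upwards [tL.eventually_ge_atTop 2, tx.eventually_ge_atTop 3, eventually_ge_atTop 3,
    tl.eventually_ge_atTop 1] with N hL hx hN3 hl
  set L := LL N with hLd
  set x := Real.log N / (4 * L) with hxd
  have hN0 : (0 : ℝ) < N := by exact_mod_cast (by omega : 0 < N)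
  have hlog4 : Real.log 4 ≤ 2 := by
    have : Real.log 4 = 2 * Real.log 2 := by
      rw [show (4 : ℝ) = 2 ^ 2 by norm_num, Real.log_pow]; norm_num
    rw [this]; linarith [Real.log_two_lt_d9]
  have hlogL : 0 ≤ Real.log L := Real.log_nonneg (by linarith)
  have hy1 : (yy N : ℝ) ≤ Real.exp x := Nat.floor_le (Real.exp_pos _).le
  have hy2 : Real.exp x < yy N + 1 := Nat.lt_floor_add_one _
  have he : 2 ≤ Real.exp (x - 1) := by
    have := Real.add_one_le_exp (x - 1)
    linarith
  have hy3 : Real.exp (x - 1) ≤ yy N := by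
    have h1 : Real.exp x = Real.exp (x - 1) * Real.exp 1 := by rw [← Real.exp_add]; ring_nf
    have h2 : 2 ≤ Real.exp 1 := by linarith [Real.exp_one_gt_d9]
    nlinarith
  have hyN : yy N ≤ N := by
    have h1 : x ≤ Real.log N := by
      rw [hxd, div_le_iff₀ (by linarith)]
      nlinarith
    have h2 : (yy N : ℝ) ≤ N := hy1.trans (by
      calc Real.exp x ≤ Real.exp (Real.log N) := Real.exp_le_exp.2 h1
        _ = N := Real.exp_log hN0)
    exact_mod_cast h2
  have hy4 : 3 ≤ yy N := by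
    have h1 : Real.exp 2 ≤ Real.exp (x - 1) := Real.exp_le_exp.2 (by linarith)
    have h2 : (2 : ℝ) < Real.exp 2 := by
      have := Real.add_one_lt_exp (show (2 : ℝ) ≠ 0 by norm_num)
      linarith
    have h3 : (2 : ℝ) < yy N := by linarith
    have h4 : 2 < yy N := by exact_mod_cast h3
    omega
  have hyp : (0 : ℝ) < yy N := by exact_mod_cast (by omega : 0 < yy N)
  have l1 : Real.log (yy N) ≤ x := by
    rw [Real.log_le_iff_le_exp hyp]; exact hy1
  have l2 : x - 1 ≤ Real.log (yy N) := by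
    rw [Real.le_log_iff_exp_le hyp]; exact hy3
  have l3 : Real.log (Real.log (yy N)) ≤ Real.log x := Real.log_le_log (by linarith) l1
  have l4 : Real.log x - 1 ≤ Real.log (Real.log (yy N)) := by
    have h1 : Real.log (x / 2) ≤ Real.log (Real.log (yy N)) := Real.log_le_log (by linarith) (by linarith)
    rw [Real.log_div (by linarith) (by norm_num)] at h1
    linarith [Real.log_two_lt_d9]
  have l5 : Real.log x = L - Real.log 4 - Real.log L := by
    rw [hxd, Real.log_div (by linarith) (by linarith), Real.log_mul (by norm_num) (by linarith)]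
    simp only [hLd, LL]
    ring
  have hlog40 : 0 ≤ Real.log 4 := Real.log_nonneg (by norm_num)
  have m1 := hC (yy N) hy4
  have m2 := hC N hN3
  obtain ⟨m3, m4⟩ := abs_le.1 m1
  obtain ⟨m5, m6⟩ := abs_le.1 m2
  have eL : Real.log (Real.log N) = L := rfl
  rw [eL] at m5 m6
  refine ⟨⟨hyN, ?_⟩, ?_, ?_⟩
  · have : WW N = ∑ p ∈ (Icc 1 (yy N)).filter Nat.Prime, (1 : ℝ) / p := rfl
    rw [this, abs_le]
    constructor <;> linarith
  · have hsub : P1 (yy N) ⊆ P1 N := by
      intro p hp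
      rw [mem_P1] at hp ⊢
      exact ⟨hp.1, hp.2.trans hyN⟩
    have h1 := sum_sdiff (f := fun p : ℕ => (1 : ℝ) / p) hsub
    have h2 : ∑ p ∈ P1 N, (1 : ℝ) / p = ∑ p ∈ (Icc 1 N).filter Nat.Prime, (1 : ℝ) / p := rfl
    have h3 : ∑ p ∈ P1 (yy N), (1 : ℝ) / p = ∑ p ∈ (Icc 1 (yy N)).filter Nat.Prime, (1 : ℝ) / p := rfl
    rw [h2, h3] at h1
    linarith
  · rw [Real.exp_add]
    have h1 : 1 ≤ Real.exp x := Real.one_le_exp (by linarith)
    have h2 : 2 ≤ Real.exp 1 := by linarith [Real.exp_one_gt_d9]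
    nlinarith

end Pool.Agent.X62.EK
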