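import Pool.Agent.X62.EK.Char

/-! The limit of the characteristic function of the normalised number of prime factors. -/

set_option autoImplicit false

namespace Pool.Agent.X62.EK

open Finset Filter Topology

/-- the number of prime factors -/
theorem om_P1 {n N : ℕ} (hn : n ∈ Icc 1 N) : om (P1 N) n = n.primeFactors.card := by
  unfold om
  congr 1
  ext p
  rw [mem_Icc] at hn
  rw [mem_filter, mem_P1, Nat.mem_primeFactors]
  constructor
  · rintro ⟨⟨h1, _⟩, h2⟩; exact ⟨h1, h2, by omega⟩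
  · rintro ⟨h1, h2, _⟩
    exact ⟨⟨h1, (Nat.le_of_dvd (by omega) h2).trans hn.2⟩, h2⟩

theorem om_split {A B : Finset ℕ} (h : A ⊆ B) (n : ℕ) : om B n = om A n + om (B \ A) n := by
  unfold om
  rw [← card_union_of_disjoint]
  · congr 1
    ext p
    simp only [mem_filter, mem_union, Finset.mem_sdiff]
    constructor
    · rintro ⟨h1, h2⟩
      by_cases h3 : p ∈ A
      · exact Or.inl ⟨h3, h2⟩
      · exact Or.inr ⟨⟨h1, h3⟩, h2⟩
    · rintro (⟨h1, h2⟩ | ⟨⟨h1, _⟩, h2⟩)
      · exact ⟨h h1, h2⟩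
      · exact ⟨h1, h2⟩
  · rw [disjoint_left]
    intro p h1 h2
    rw [mem_filter] at h1 h2
    exact (Finset.mem_sdiff.1 h2.1).2 h1.1

theorem sum_om (S : Finset ℕ) (N : ℕ) : ∑ n ∈ Icc 1 N, (om S n : ℝ) ≤ N * ∑ p ∈ S, (1 : ℝ) / p := by
  classical
  have h1 : ∑ n ∈ Icc 1 N, (om S n : ℝ) = ∑ p ∈ S, (((Icc 1 N).filter (fun n => p ∣ n)).card : ℝ) := by
    unfold om
    simp only [card_filter]
    push_cast
    rw [sum_comm]
  rw [h1, mul_sum]
  apply sum_le_sum
  intro p _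
  have h2 : ((Icc 1 N).filter (fun n => p ∣ n)).card = N / p := by
    have := Nat.Ioc_filter_dvd_card_eq_div N p
    rw [← this]
    congr 1
  rw [h2, mul_one_div]
  exact Nat.cast_div_le

theorem pow_diff (θ : ℝ) (a b : ℕ) : ‖Complex.exp (Complex.I * θ) ^ (a + b) - Complex.exp (Complex.I * θ) ^ a‖ ≤
    |θ| * b := by
  have hz : ‖Complex.exp (Complex.I * θ)‖ = 1 := by
    rw [mul_comm]; exact Complex.norm_exp_ofReal_mul_I θ
  have h1 : ‖Complex.exp (Complex.I * θ) - 1‖ ≤ |θ| := by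
    have := Real.norm_exp_I_mul_ofReal_sub_one_le (x := θ)
    rwa [Real.norm_eq_abs] at this
  rw [pow_add, ← mul_sub_one, norm_mul, norm_pow, hz, one_pow, one_mul]
  induction b with
  | zero => simp
  | succ b ih =>
    have e : Complex.exp (Complex.I * θ) ^ (b + 1) - 1 =
        (Complex.exp (Complex.I * θ) ^ b - 1) * Complex.exp (Complex.I * θ) + (Complex.exp (Complex.I * θ) - 1) := by
      rw [pow_succ]; ring
    rw [e]
    refine (norm_add_le _ _).trans ?_
    rw [norm_mul, hz, mul_one]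
    push_cast
    linarith

/-- the number of prime factors against the number of small prime factors -/
theorem step1 {N : ℕ} (hN : 1 ≤ N) (hy : yy N ≤ N) (θ : ℝ) :
    ‖(∑ n ∈ Icc 1 N, Complex.exp (Complex.I * θ) ^ n.primeFactors.card) / N -
      (∑ n ∈ Icc 1 N, Complex.exp (Complex.I * θ) ^ om (P1 (yy N)) n) / N‖ ≤
      |θ| * ∑ p ∈ P1 N \ P1 (yy N), (1 : ℝ) / p := by
  have hN0 : (0 : ℝ) < N := by exact_mod_cast hN
  have hsub : P1 (yy N) ⊆ P1 N := by
    intro p hp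
    rw [mem_P1] at hp ⊢
    exact ⟨hp.1, hp.2.trans hy⟩
  rw [← sub_div, ← sum_sub_distrib, norm_div, Complex.norm_natCast, div_le_iff₀ hN0]
  refine (norm_sum_le _ _).trans ?_
  have h1 : ∀ n ∈ Icc 1 N, ‖Complex.exp (Complex.I * θ) ^ n.primeFactors.card -
      Complex.exp (Complex.I * θ) ^ om (P1 (yy N)) n‖ ≤ |θ| * om (P1 N \ P1 (yy N)) n := by
    intro n hn
    rw [← om_P1 hn, om_split hsub n]
    exact pow_diff θ _ _
  refine (sum_le_sum h1).trans ?_
  rw [← mul_sum]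
  have h2 := mul_le_mul_of_nonneg_left (sum_om (P1 N \ P1 (yy N)) N) (abs_nonneg θ)
  refine h2.trans (le_of_eq ?_)
  ring

/-- the small prime factors -/
theorem step2 {N : ℕ} (hN : 1 ≤ N) {θ : ℝ} (hθ : |θ| ≤ 1) (j : ℕ) :
    ‖(∑ n ∈ Icc 1 N, Complex.exp (Complex.I * θ) ^ om (P1 (yy N)) n) / N -
      Complex.exp ((Complex.exp (Complex.I * θ) - 1) * (WW N : ℂ))‖ ≤
      2 * (Real.exp (Real.exp 1 * (|θ| * WW N)) / Real.exp 1 ^ j) + ((yy N : ℝ) + 1) ^ j / N + 2 * |θ| ^ 2 := by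
  have hz : ‖Complex.exp (Complex.I * θ)‖ = 1 := by
    rw [mul_comm]; exact Complex.norm_exp_ofReal_mul_I θ
  have h1 : ‖Complex.exp (Complex.I * θ) - 1‖ ≤ |θ| := by
    have := Real.norm_exp_I_mul_ofReal_sub_one_le (x := θ)
    rwa [Real.norm_eq_abs] at this
  have key := avg_forms (ι := Unit) (a := fun _ => 1) (q := fun _ => 1) (z := fun _ => Complex.exp (Complex.I * θ))
    (fun _ => hz) (PP := P1 (yy N)) (fun p hp => ⟨(mem_P1.1 hp).1, fun _ h => (mem_P1.1 hp).1.one_lt.ne'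
      (Nat.dvd_one.1 h), fun i j hij => absurd (Subsingleton.elim i j) hij⟩) (B := |θ|) (by simpa using h1) hθ hN j
  simp only [univ_unique, prod_const, sum_const, card_singleton, pow_one, one_smul, one_mul] at key
  have e1 : ∑ m ∈ range N, Complex.exp (Complex.I * θ) ^ om (P1 (yy N)) (1 + m) =
      ∑ n ∈ Icc 1 N, Complex.exp (Complex.I * θ) ^ om (P1 (yy N)) n := by
    have e0 : Icc 1 N = Ico 1 (N + 1) := by
      ext n; rw [mem_Icc, mem_Ico]; omega
    rw [e0, sum_Ico_eq_sum_range]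
    simp
  rw [e1] at key
  refine key.trans ?_
  have hcard : (#(P1 (yy N)) : ℝ) ≤ yy N := by
    have : #(P1 (yy N)) ≤ #(Icc 1 (yy N)) := card_le_card (filter_subset _ _)
    rw [Nat.card_Icc, Nat.add_sub_cancel] at this
    exact_mod_cast this
  have h3 : ((#(P1 (yy N)) : ℝ) + 1) ^ j / N ≤ ((yy N : ℝ) + 1) ^ j / N := by
    apply div_le_div_of_nonneg_right _ (Nat.cast_nonneg _)
    exact pow_le_pow_left₀ (by positivity) (by linarith) _
  have : WW N = ∑ p ∈ P1 (yy N), (1 : ℝ) / p := rfl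
  rw [← this]
  linarith

end Pool.Agent.X62.EK
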