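import Pool.Agent.X62.EK.Law
import Pool.Agent.X62.AD.Odd

/-! The theorem of Erdős and Kac in residue classes. -/

set_option autoImplicit false

namespace Pool.Agent.X62.EK

open Finset Filter Topology MeasureTheory ProbabilityTheory
open Pool.Agent.X62.AD (tr tr_comp sandwich EKPhi_cont)
open Pool.Agent.H499R2.ND (Dn cnt cnt_eq)
open scoped Classical

/-- the small primes not dividing `Q` -/
noncomputable def PQ (Q M : ℕ) : Finset ℕ := (P1 (yy M)).filter (fun p => ¬ p ∣ Q)

/-- the middle primes not dividing `Q` -/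
noncomputable def BQ (Q M : ℕ) : Finset ℕ := (P1 M \ P1 (yy M)).filter (fun p => ¬ p ∣ Q)

theorem cnt_div {Q r p : ℕ} (hp : p.Prime) (hpQ : ¬ p ∣ Q) (M : ℕ) :
    (((range M).filter (fun m => p ∣ r + Q * m)).card : ℝ) ≤ M / p + 1 := by
  have h := seg_real hp.pos (F := fun m => if p ∣ r + Q * m then (1 : ℝ) else 0) (fun m => by
    simp only
    have h : p ∣ r + Q * (m + p) ↔ p ∣ r + Q * m := by
      have e : r + Q * (m + p) = (r + Q * m) + Q * p := by ring
      rw [e]
      exact (Nat.dvd_add_left (Dvd.intro_left _ rfl))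
    simp only [h]) (fun m => by split_ifs <;> norm_num) M
  rw [← sum_filter, ← sum_filter, sum_const, sum_const, nsmul_eq_mul, nsmul_eq_mul, mul_one, mul_one] at h
  have h1 := one_class hp hpQ r
  have h2 : (((range p).filter (fun b => p ∣ r + Q * b)).card : ℝ) = 1 := by
    have h3 : ((range p).filter (fun b => p ∣ r + Q * b)).card = 1 := by convert h1
    rw [h3, Nat.cast_one]
  rw [h2, mul_one] at h
  convert h

theorem om_bound {Q r M m : ℕ} (hQ : 1 ≤ Q) (hr : 1 ≤ r) (hM : r + Q ≤ M) (hm : m < M) :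
    ∃ b : ℕ, (r + Q * m).primeFactors.card = om (PQ Q M) (r + Q * m) + b ∧
      b ≤ om (BQ Q M) (r + Q * m) + (Q + 1) := by
  set n := r + Q * m with hn
  have hn1 : 1 ≤ n := by omega
  have hnM : n < M * M := by
    have h1 : Q * m ≤ Q * (M - 1) := Nat.mul_le_mul_left _ (by omega)
    have h2 : (r + Q) * M ≤ M * M := Nat.mul_le_mul_right _ hM
    have h3 : r + Q * (M - 1) + Q = r + Q * M := by
      have : Q * M = Q * (M - 1) + Q := by
        conv_lhs => rw [show M = (M - 1) + 1 by omega]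
        ring
      omega
    have h4 : r + Q * M ≤ (r + Q) * M := by
      have : r * 1 ≤ r * M := Nat.mul_le_mul_left _ (by omega)
      rw [add_mul]; omega
    omega
  have hsub : (PQ Q M).filter (fun p => p ∣ n) ⊆ n.primeFactors := by
    intro p hp
    unfold PQ at hp
    rw [mem_filter, mem_filter, mem_P1] at hp
    rw [Nat.mem_primeFactors]
    exact ⟨hp.1.1.1, hp.2, by omega⟩
  refine ⟨(n.primeFactors \ (PQ Q M).filter (fun p => p ∣ n)).card, ?_, ?_⟩
  · rw [card_sdiff_of_subset hsub]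
    have := card_le_card hsub
    have e : om (PQ Q M) n = ((PQ Q M).filter (fun p => p ∣ n)).card := rfl
    rw [e]
    omega
  · -- the other prime factors
    have h1 : n.primeFactors \ (PQ Q M).filter (fun p => p ∣ n) ⊆
        ((BQ Q M).filter (fun p => p ∣ n)) ∪ (Q.primeFactors ∪ n.primeFactors.filter (fun p => M < p)) := by
      intro p hp
      rw [Finset.mem_sdiff, Nat.mem_primeFactors] at hp
      obtain ⟨⟨h1, h2, h3⟩, h4⟩ := hp
      rw [mem_union, mem_union, mem_filter, mem_filter, Nat.mem_primeFactors, Nat.mem_primeFactors]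
      by_cases h5 : p ∣ Q
      · exact Or.inr (Or.inl ⟨h1, h5, by omega⟩)
      · by_cases h6 : M < p
        · exact Or.inr (Or.inr ⟨⟨h1, h2, h3⟩, h6⟩)
        · left
          refine ⟨?_, h2⟩
          unfold BQ
          rw [mem_filter, Finset.mem_sdiff, mem_P1, mem_P1]
          refine ⟨⟨⟨h1, by omega⟩, fun h7 => h4 ?_⟩, h5⟩
          unfold PQ
          rw [mem_filter, mem_filter, mem_P1]
          exact ⟨⟨h7, h5⟩, h2⟩
    refine (card_le_card h1).trans ((card_union_le _ _).trans ?_)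
    have h2 : ((BQ Q M).filter (fun p => p ∣ n)).card = om (BQ Q M) n := rfl
    rw [h2]
    refine Nat.add_le_add_left ((card_union_le _ _).trans (Nat.add_le_add ?_ ?_)) _
    · have : Q.primeFactors ⊆ Icc 1 Q := by
        intro p hp
        rw [Nat.mem_primeFactors] at hp
        rw [mem_Icc]
        exact ⟨hp.1.one_lt.le, Nat.le_of_dvd (by omega) hp.2.1⟩
      have h3 := card_le_card this
      rw [Nat.card_Icc, Nat.add_sub_cancel] at h3
      exact h3
    · rw [card_le_one]
      intro p hp q hq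
      rw [mem_filter, Nat.mem_primeFactors] at hp hq
      by_contra hne
      have h3 : p * q ∣ n := Nat.Coprime.mul_dvd_of_dvd_of_dvd
        ((Nat.coprime_primes hp.1.1 hq.1.1).2 hne) hp.1.2.1 hq.1.2.1
      have h4 := Nat.le_of_dvd (by omega) h3
      have h5 : M * M ≤ p * q := Nat.mul_le_mul hp.2.le hq.2.le
      omega

theorem step1c {Q r M : ℕ} (hQ : 1 ≤ Q) (hr : 1 ≤ r) (hM : r + Q ≤ M) (θ : ℝ) :
    ‖(∑ m ∈ range M, Complex.exp (Complex.I * θ) ^ (r + Q * m).primeFactors.card) / M -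
      (∑ m ∈ range M, Complex.exp (Complex.I * θ) ^ om (PQ Q M) (r + Q * m)) / M‖ ≤
      |θ| * ((Q + 1) + 2 * ∑ p ∈ P1 M \ P1 (yy M), (1 : ℝ) / p) := by
  have hM1 : 1 ≤ M := by omega
  have hM0 : (0 : ℝ) < M := by exact_mod_cast hM1
  rw [← sub_div, ← sum_sub_distrib, norm_div, Complex.norm_natCast, div_le_iff₀ hM0]
  refine (norm_sum_le _ _).trans ?_
  have h1 : ∀ m ∈ range M, ‖Complex.exp (Complex.I * θ) ^ (r + Q * m).primeFactors.card -
      Complex.exp (Complex.I * θ) ^ om (PQ Q M) (r + Q * m)‖ ≤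
      |θ| * (om (BQ Q M) (r + Q * m) + (Q + 1)) := by
    intro m hm
    obtain ⟨b, h2, h3⟩ := om_bound hQ hr hM (mem_range.1 hm)
    rw [h2]
    refine (pow_diff θ _ _).trans (mul_le_mul_of_nonneg_left ?_ (abs_nonneg _))
    exact_mod_cast h3
  refine (sum_le_sum h1).trans ?_
  rw [← mul_sum, mul_assoc]
  apply mul_le_mul_of_nonneg_left _ (abs_nonneg _)
  rw [sum_add_distrib, sum_const, card_range, nsmul_eq_mul]
  have h4 : ∑ m ∈ range M, (om (BQ Q M) (r + Q * m) : ℝ) ≤ 2 * (∑ p ∈ P1 M \ P1 (yy M), (1 : ℝ) / p) * M := by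
    have e1 : ∑ m ∈ range M, (om (BQ Q M) (r + Q * m) : ℝ) =
        ∑ p ∈ BQ Q M, (((range M).filter (fun m => p ∣ r + Q * m)).card : ℝ) := by
      unfold om
      simp only [card_filter]
      push_cast
      rw [sum_comm]
    rw [e1]
    have h5 : ∀ p ∈ BQ Q M, (((range M).filter (fun m => p ∣ r + Q * m)).card : ℝ) ≤ 2 * (1 / p) * M := by
      intro p hp
      unfold BQ at hp
      rw [mem_filter, Finset.mem_sdiff, mem_P1] at hp
      refine (cnt_div hp.1.1.1 hp.2 M).trans ?_
      have hp0 : (0 : ℝ) < p := by exact_mod_cast hp.1.1.1.pos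
      have h6 : (1 : ℝ) ≤ M / p := by
        rw [one_le_div hp0]
        exact_mod_cast hp.1.1.2
      have e : 2 * (1 / (p : ℝ)) * M = M / p + M / p := by ring
      linarith
    refine (sum_le_sum h5).trans ?_
    rw [← sum_mul, ← mul_sum]
    apply mul_le_mul_of_nonneg_right _ hM0.le
    apply mul_le_mul_of_nonneg_left _ (by norm_num)
    unfold BQ
    exact sum_le_sum_of_subset_of_nonneg (filter_subset _ _) (fun _ _ _ => by positivity)
  linarith

theorem WQ_bound (Q M : ℕ) (hQ : 1 ≤ Q) : |WW M - ∑ p ∈ PQ Q M, (1 : ℝ) / p| ≤ Q := by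
  have e : WW M - ∑ p ∈ PQ Q M, (1 : ℝ) / p = ∑ p ∈ (P1 (yy M)).filter (fun p => p ∣ Q), (1 : ℝ) / p := by
    unfold WW PQ
    have h1 := sum_filter_add_sum_filter_not (P1 (yy M)) (fun p => p ∣ Q) (fun p : ℕ => (1 : ℝ) / p)
    linarith
  rw [e, abs_of_nonneg (sum_nonneg fun _ _ => by positivity)]
  have h1 : (P1 (yy M)).filter (fun p => p ∣ Q) ⊆ Icc 1 Q := by
    intro p hp
    rw [mem_filter, mem_P1] at hp
    rw [mem_Icc]
    exact ⟨hp.1.1.one_lt.le, Nat.le_of_dvd (by omega) hp.2⟩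
  calc ∑ p ∈ (P1 (yy M)).filter (fun p => p ∣ Q), (1 : ℝ) / p
      ≤ ∑ _p ∈ (P1 (yy M)).filter (fun p => p ∣ Q), (1 : ℝ) := by
        apply sum_le_sum
        intro p hp
        rw [mem_filter, mem_P1] at hp
        have : (1 : ℝ) ≤ p := by exact_mod_cast hp.1.1.one_lt.le
        rw [div_le_one (by linarith)]; exact this
    _ = ((P1 (yy M)).filter (fun p => p ∣ Q)).card := by rw [sum_const, nsmul_eq_mul, mul_one]
    _ ≤ (Icc 1 Q).card := by exact_mod_cast card_le_card h1
    _ = Q := by rw [Nat.card_Icc, Nat.add_sub_cancel]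

theorem step2c {Q r M : ℕ} (hM : 1 ≤ M) {θ : ℝ} (hθ : |θ| ≤ 1) (j : ℕ) :
    ‖(∑ m ∈ range M, Complex.exp (Complex.I * θ) ^ om (PQ Q M) (r + Q * m)) / M -
      Complex.exp ((Complex.exp (Complex.I * θ) - 1) * ((∑ p ∈ PQ Q M, (1 : ℝ) / p : ℝ) : ℂ))‖ ≤
      2 * (Real.exp (Real.exp 1 * (|θ| * WW M)) / Real.exp 1 ^ j) + ((yy M : ℝ) + 1) ^ j / M + 2 * |θ| ^ 2 := by
  have hz : ‖Complex.exp (Complex.I * θ)‖ = 1 := by
    rw [mul_comm]; exact Complex.norm_exp_ofReal_mul_I θ
  have h1 : ‖Complex.exp (Complex.I * θ) - 1‖ ≤ |θ| := by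
    have := Real.norm_exp_I_mul_ofReal_sub_one_le (x := θ)
    rwa [Real.norm_eq_abs] at this
  have hPQ : ∀ p ∈ PQ Q M, p.Prime ∧ p ≤ yy M ∧ ¬ p ∣ Q := by
    intro p hp
    unfold PQ at hp
    rw [mem_filter, mem_P1] at hp
    exact ⟨hp.1.1, hp.1.2, hp.2⟩
  have key := avg_forms (ι := Unit) (a := fun _ => Q) (q := fun _ => r) (z := fun _ => Complex.exp (Complex.I * θ))
    (fun _ => hz) (PP := PQ Q M) (fun p hp => ⟨(hPQ p hp).1, fun _ => (hPQ p hp).2.2,
      fun i j hij => absurd (Subsingleton.elim i j) hij⟩) (B := |θ|) (by simpa using h1) hθ hM j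
  simp only [univ_unique, prod_const, sum_const, card_singleton, pow_one, one_smul] at key
  refine key.trans ?_
  have hsub : PQ Q M ⊆ P1 (yy M) := filter_subset _ _
  have hcard : (#(PQ Q M) : ℝ) ≤ yy M := by
    have : #(PQ Q M) ≤ #(Icc 1 (yy M)) := (card_le_card hsub).trans (card_le_card (filter_subset _ _))
    rw [Nat.card_Icc, Nat.add_sub_cancel] at this
    exact_mod_cast this
  have h3 : ((#(PQ Q M) : ℝ) + 1) ^ j / M ≤ ((yy M : ℝ) + 1) ^ j / M := by
    apply div_le_div_of_nonneg_right _ (Nat.cast_nonneg _)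
    exact pow_le_pow_left₀ (by positivity) (by linarith) _
  have h4 : ∑ p ∈ PQ Q M, (1 : ℝ) / p ≤ WW M := by
    unfold WW
    exact sum_le_sum_of_subset_of_nonneg hsub (fun _ _ _ => by positivity)
  have h5 : 2 * (Real.exp (Real.exp 1 * (|θ| * ∑ p ∈ PQ Q M, (1 : ℝ) / p)) / Real.exp 1 ^ j) ≤
      2 * (Real.exp (Real.exp 1 * (|θ| * WW M)) / Real.exp 1 ^ j) := by
    apply mul_le_mul_of_nonneg_left _ (by norm_num)
    apply div_le_div_of_nonneg_right _ (by positivity)
    apply Real.exp_le_exp.2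
    apply mul_le_mul_of_nonneg_left _ (Real.exp_pos _).le
    exact mul_le_mul_of_nonneg_left h4 (abs_nonneg _)
  linarith

/-- comparison with the exponential -/
theorem lim1c {Q r : ℕ} (hQ : 1 ≤ Q) (hr : 1 ≤ r) (τ : ℝ) : Tendsto (fun M : ℕ =>
    (∑ m ∈ range M, Complex.exp (Complex.I * (th τ M : ℝ)) ^ (r + Q * m).primeFactors.card) / (M : ℂ) -
      Complex.exp ((Complex.exp (Complex.I * (th τ M : ℝ)) - 1) * ((∑ p ∈ PQ Q M, (1 : ℝ) / p : ℝ) : ℂ)))
      atTop (𝓝 0) := by
  obtain ⟨C, hC, hev⟩ := sum_P1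
  have h0 : Tendsto (fun N => |th 1 N|) atTop (𝓝 0) := by simpa using (t_th 1).abs
  have hb : Tendsto (fun N : ℕ => (|τ| * (Q + 1) * |th 1 N| + 2 * |τ| * ((C + Real.log (LL N)) / Real.sqrt (LL N))) +
      (2 * Real.exp ((6 * |τ|) * Real.sqrt (LL N) - LL N) + Real.exp (-(Real.log N / 2)) +
        2 * τ ^ 2 / LL N)) atTop (𝓝 0) := by
    have h1 := ((h0.const_mul (|τ| * (Q + 1))).add (t_logL C (2 * |τ|))).add
      ((((t_exp (6 * |τ|)).const_mul 2).add t_exp_half).add (t_inv (2 * τ ^ 2)))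
    simpa using h1
  refine squeeze_zero_norm' ?_ hb
  have e1 : ∀ᶠ N : ℕ in atTop, C + Real.log (LL N) ≤ LL N := by
    have h1 : Tendsto (fun L : ℝ => (C + Real.log L) / L) atTop (𝓝 0) := by
      have h2 := Real.isLittleO_log_id_atTop.tendsto_div_nhds_zero
      have h3 : Tendsto (fun L : ℝ => C / L) atTop (𝓝 0) := tendsto_const_nhds.div_atTop tendsto_id
      have h4 := h3.add h2
      rw [add_zero] at h4
      refine h4.congr fun L => ?_
      simp only [id]
      ring
    filter_upwards [(h1.comp tL).eventually_le_const (show (0 : ℝ) < 1 by norm_num),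
      tL.eventually_gt_atTop 0] with N h5 h6
    simp only [Function.comp] at h5
    rwa [div_le_one h6] at h5
  have e2 : ∀ᶠ N : ℕ in atTop, LL N + 1 ≤ Real.log N / 8 := by
    have h2 := Real.isLittleO_log_id_atTop.tendsto_div_nhds_zero
    filter_upwards [(h2.comp tl).eventually_le_const (show (0 : ℝ) < 1 / 16 by norm_num),
      tl.eventually_ge_atTop 16] with N h5 h6
    simp only [Function.comp, id] at h5
    rw [div_le_iff₀ (by linarith)] at h5
    have : LL N = Real.log (Real.log N) := rfl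
    rw [this]
    linarith
  have e3 : ∀ᶠ N : ℕ in atTop, |th τ N| ≤ 1 := by
    have := (t_th τ).abs
    rw [abs_zero] at this
    exact this.eventually_le_const one_pos
  filter_upwards [hev, e1, e2, e3, tL.eventually_ge_atTop 2, eventually_ge_atTop (r + Q + 3)] with N h1 h2 h3 h4 h5 h6
  obtain ⟨⟨hy, hW⟩, hS, hY⟩ := h1
  have hN0 : (0 : ℝ) < N := by exact_mod_cast (by omega : 0 < N)
  have s1 := step1c hQ hr (by omega : r + Q ≤ N) (th τ N)
  have s2 := step2c (Q := Q) (r := r) (by omega : 1 ≤ N) h4 ⌈LL N⌉₊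
  set L := LL N with hL
  have hsL : 0 < Real.sqrt L := Real.sqrt_pos.2 (by linarith)
  have hss : Real.sqrt L * Real.sqrt L = L := Real.mul_self_sqrt (by linarith)
  have hth : |th τ N| = |τ| / Real.sqrt L := by
    unfold th
    rw [abs_div, abs_of_pos hsL]
  have hth1 : |th 1 N| = 1 / Real.sqrt L := by
    unfold th
    rw [abs_div, abs_of_pos hsL, abs_one]
  have key := norm_sub_le_norm_sub_add_norm_sub
    ((∑ m ∈ range N, Complex.exp (Complex.I * (th τ N : ℝ)) ^ (r + Q * m).primeFactors.card) / (N : ℂ))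
    ((∑ m ∈ range N, Complex.exp (Complex.I * (th τ N : ℝ)) ^ om (PQ Q N) (r + Q * m)) / (N : ℂ))
    (Complex.exp ((Complex.exp (Complex.I * (th τ N : ℝ)) - 1) * ((∑ p ∈ PQ Q N, (1 : ℝ) / p : ℝ) : ℂ)))
  refine key.trans ?_
  refine add_le_add (s1.trans ?_) (s2.trans ?_)
  · rw [hth, hth1]
    have h7 : (Q : ℝ) + 1 + 2 * ∑ p ∈ P1 N \ P1 (yy N), (1 : ℝ) / p ≤ (Q + 1) + 2 * (C + Real.log L) := by linarith
    have := mul_le_mul_of_nonneg_left h7 (show 0 ≤ |τ| / Real.sqrt L by positivity)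
    refine this.trans (le_of_eq ?_)
    ring
  · have hceil : L ≤ (⌈L⌉₊ : ℝ) := Nat.le_ceil _
    have hceil2 : (⌈L⌉₊ : ℝ) < L + 1 := Nat.ceil_lt_add_one (by linarith)
    obtain ⟨w1, w2⟩ := abs_le.1 hW
    have hW2 : WW N ≤ 2 * L := by linarith
    refine add_le_add (add_le_add ?_ ?_) ?_
    · apply mul_le_mul_of_nonneg_left _ (by norm_num)
      rw [← Real.exp_nat_mul, mul_one, ← Real.exp_sub]
      apply Real.exp_le_exp.2
      have h7 : Real.exp 1 * (|th τ N| * WW N) ≤ 6 * |τ| * Real.sqrt L := by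
        have h8 : |th τ N| * WW N ≤ 2 * |τ| * Real.sqrt L := by
          calc |th τ N| * WW N ≤ |th τ N| * (2 * L) := mul_le_mul_of_nonneg_left hW2 (abs_nonneg _)
            _ = |τ| / Real.sqrt L * (2 * (Real.sqrt L * Real.sqrt L)) := by rw [hth, hss]
            _ = 2 * |τ| * Real.sqrt L := by field_simp
        have h9 : Real.exp 1 ≤ 3 := by linarith [Real.exp_one_lt_d9]
        have h10 : 0 ≤ 2 * |τ| * Real.sqrt L := by positivity
        calc Real.exp 1 * (|th τ N| * WW N) ≤ Real.exp 1 * (2 * |τ| * Real.sqrt L) :=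
              mul_le_mul_of_nonneg_left h8 (Real.exp_pos _).le
          _ ≤ 3 * (2 * |τ| * Real.sqrt L) := mul_le_mul_of_nonneg_right h9 h10
          _ = _ := by ring
      linarith
    · rw [div_le_iff₀ hN0]
      have h7 : ((yy N : ℝ) + 1) ^ ⌈L⌉₊ ≤ Real.exp (Real.log N / (4 * L) + 1) ^ ⌈L⌉₊ :=
        pow_le_pow_left₀ (by positivity) hY _
      refine h7.trans ?_
      rw [← Real.exp_nat_mul]
      have h8 : Real.exp (-(Real.log N / 2)) * N = Real.exp (Real.log N / 2) := by
        have : (N : ℝ) = Real.exp (Real.log N) := (Real.exp_log hN0).symm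
        conv_lhs => rw [this]
        rw [← Real.exp_add, Real.log_exp]
        congr 1; ring
      rw [h8]
      apply Real.exp_le_exp.2
      have h9 : 0 ≤ Real.log N := Real.log_natCast_nonneg N
      have h10 : Real.log N / (4 * L) ≤ Real.log N / 8 := by
        apply div_le_div_of_nonneg_left h9 (by norm_num) (by linarith)
      have h11 : (⌈L⌉₊ : ℝ) * (Real.log N / (4 * L) + 1) ≤ (L + 1) * (Real.log N / (4 * L) + 1) :=
        mul_le_mul_of_nonneg_right hceil2.le (by positivity)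
      have h12 : (L + 1) * (Real.log N / (4 * L) + 1) = Real.log N / 4 + Real.log N / (4 * L) + (L + 1) := by
        have : L ≠ 0 := by linarith
        field_simp
      linarith
    · have h7 : 2 * |th τ N| ^ 2 = 2 * τ ^ 2 / L := by
        rw [hth, div_pow, sq_abs, Real.sq_sqrt (by linarith)]; ring
      exact h7.le

/-- the exponent -/
theorem lim2c {Q : ℕ} (hQ : 1 ≤ Q) (τ : ℝ) : Tendsto (fun N : ℕ => (Complex.exp (Complex.I * (th τ N : ℝ)) - 1) *
    ((∑ p ∈ PQ Q N, (1 : ℝ) / p : ℝ) : ℂ) - Complex.I * (th τ N : ℝ) * (LL N : ℂ)) atTop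
    (𝓝 (-(τ : ℂ) ^ 2 / 2)) := by
  have h1 := lim2 τ
  have h2 : Tendsto (fun N : ℕ => (Complex.exp (Complex.I * (th τ N : ℝ)) - 1) *
      ((WW N - ∑ p ∈ PQ Q N, (1 : ℝ) / p : ℝ) : ℂ)) atTop (𝓝 0) := by
    have h3 : Tendsto (fun N : ℕ => |th τ N| * Q) atTop (𝓝 0) := by
      have := ((t_th τ).abs).mul_const (Q : ℝ)
      simpa using this
    refine squeeze_zero_norm (fun N => ?_) h3
    rw [norm_mul, Complex.norm_real, Real.norm_eq_abs]
    have h4 : ‖Complex.exp (Complex.I * (th τ N : ℝ)) - 1‖ ≤ |th τ N| := by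
      have := Real.norm_exp_I_mul_ofReal_sub_one_le (x := th τ N)
      rwa [Real.norm_eq_abs] at this
    exact mul_le_mul h4 (WQ_bound Q N hQ) (abs_nonneg _) (abs_nonneg _)
  have h3 := h1.sub h2
  rw [sub_zero] at h3
  refine h3.congr fun N => ?_
  push_cast
  ring

/-- THE CHARACTERISTIC FUNCTION in a residue class -/
theorem char_limc {Q r : ℕ} (hQ : 1 ≤ Q) (hr : 1 ≤ r) (τ : ℝ) : Tendsto (fun M : ℕ =>
    (∑ m ∈ range M, Complex.exp (Complex.I * ((th τ M * (((r + Q * m).primeFactors.card : ℝ) - LL M) : ℝ) : ℂ))) /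
      (M : ℂ)) atTop (𝓝 (Complex.exp (-(τ : ℂ) ^ 2 / 2))) := by
  have h1 := lim1c hQ hr τ
  have h2 := (Complex.continuous_exp.tendsto _).comp (lim2c hQ τ)
  have h3 : Tendsto (fun N : ℕ => Complex.exp (-(Complex.I * (th τ N : ℝ) * (LL N : ℂ))) *
      ((∑ m ∈ range N, Complex.exp (Complex.I * (th τ N : ℝ)) ^ (r + Q * m).primeFactors.card) / (N : ℂ) -
      Complex.exp ((Complex.exp (Complex.I * (th τ N : ℝ)) - 1) * ((∑ p ∈ PQ Q N, (1 : ℝ) / p : ℝ) : ℂ))))
      atTop (𝓝 0) := by
    rw [tendsto_zero_iff_norm_tendsto_zero] at h1 ⊢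
    refine h1.congr fun N => ?_
    rw [norm_mul]
    have : ‖Complex.exp (-(Complex.I * (th τ N : ℝ) * (LL N : ℂ)))‖ = 1 := by
      have e : -(Complex.I * (th τ N : ℝ) * (LL N : ℂ)) = ((-(th τ N * LL N) : ℝ) : ℂ) * Complex.I := by
        push_cast; ring
      rw [e]
      exact Complex.norm_exp_ofReal_mul_I _
    rw [this, one_mul]
  have h4 := h3.add h2
  rw [zero_add] at h4
  refine h4.congr fun N => ?_
  simp only [Function.comp]
  have e1 : Complex.exp ((Complex.exp (Complex.I * (th τ N : ℝ)) - 1) * ((∑ p ∈ PQ Q N, (1 : ℝ) / p : ℝ) : ℂ) -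
      Complex.I * (th τ N : ℝ) * (LL N : ℂ)) = Complex.exp (-(Complex.I * (th τ N : ℝ) * (LL N : ℂ))) *
      Complex.exp ((Complex.exp (Complex.I * (th τ N : ℝ)) - 1) * ((∑ p ∈ PQ Q N, (1 : ℝ) / p : ℝ) : ℂ)) := by
    rw [← Complex.exp_add]; congr 1; ring
  rw [e1, mul_sub, sub_add_cancel, mul_div_assoc', mul_sum]
  congr 1
  apply sum_congr rfl
  intro n _
  rw [← Complex.exp_nat_mul, ← Complex.exp_add]
  congr 1
  push_cast
  ring

/-- from characteristic functions to distribution functions -/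
theorem cdf_of_char {F : ℕ → ℕ → ℝ} (h : ∀ τ : ℝ, Tendsto (fun M : ℕ =>
    (∑ m ∈ range M, Complex.exp (Complex.I * ((τ * F M m : ℝ) : ℂ))) / (M : ℂ)) atTop
    (𝓝 (Complex.exp (-(τ : ℂ) ^ 2 / 2)))) (y : ℝ) :
    Tendsto (fun M : ℕ => (((range M).filter (fun m => F M m ≤ y)).card : ℝ) / M) atTop (𝓝 (Phi y)) := by
  set pm' : ℕ → ProbabilityMeasure ℝ := fun N => ⟨em (fun n => F (N + 1) (n - 1)) N, em_prob _ _⟩ with hpm
  have hsum : ∀ (N : ℕ) (G : ℕ → ℂ), ∑ n ∈ Icc 1 (N + 1), G (n - 1) = ∑ m ∈ range (N + 1), G m := by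
    intro N G
    have e0 : Icc 1 (N + 1) = Ico 1 (N + 1 + 1) := by
      ext n; rw [mem_Icc, mem_Ico]; omega
    rw [e0, sum_Ico_eq_sum_range]
    simp
  have hconv : Tendsto pm' atTop (𝓝 gs) := by
    rw [ProbabilityMeasure.tendsto_iff_tendsto_charFun]
    intro τ
    have h1 := (h τ).comp (tendsto_add_atTop_nat 1)
    have e : charFun (gs : Measure ℝ) τ = Complex.exp (-(τ : ℂ) ^ 2 / 2) := by
      show charFun (gaussianReal 0 1) τ = _
      rw [charFun_gaussianReal]
      congr 1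
      push_cast
      ring
    rw [e]
    refine h1.congr fun N => ?_
    show _ = charFun (em (fun n => F (N + 1) (n - 1)) N) τ
    rw [em_char]
    simp only [Function.comp]
    rw [hsum N (fun m => Complex.exp (Complex.I * ((τ * F (N + 1) m : ℝ) : ℂ)))]
    push_cast
    rfl
  rw [← tendsto_add_atTop_iff_nat 1]
  have h1 := ProbabilityMeasure.tendsto_measure_of_null_frontier_of_tendsto' hconv (E := Set.Iic y) (by
    show gaussianReal 0 1 (frontier (Set.Iic y)) = 0
    rw [frontier_Iic]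
    haveI := noAtoms_gaussianReal (μ := 0) (v := 1) one_ne_zero
    exact measure_singleton _)
  have h2 := (ENNReal.tendsto_toReal (measure_ne_top _ _)).comp h1
  have e : (((gs : Measure ℝ) (Set.Iic y))).toReal = Phi y := by
    unfold Phi
    rw [cdf_eq_real]
    rfl
  rw [e] at h2
  refine h2.congr fun N => ?_
  show (em (fun n => F (N + 1) (n - 1)) N (Set.Iic y)).toReal = _
  rw [em_apply _ _ measurableSet_Iic, ENNReal.toReal_ofReal (by positivity)]
  push_cast
  congr 2
  rw [← Set.ncard_coe_finset]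
  have e2 : {n : ℕ | 1 ≤ n ∧ n ≤ N + 1 ∧ F (N + 1) (n - 1) ∈ Set.Iic y} =
      (fun m => m + 1) '' (((range (N + 1)).filter (fun m => F (N + 1) m ≤ y) : Finset ℕ) : Set ℕ) := by
    ext n
    rw [Set.mem_image]
    constructor
    · rintro ⟨h1, h2, h3⟩
      refine ⟨n - 1, ?_, by omega⟩
      rw [mem_coe, mem_filter, mem_range]
      exact ⟨by omega, h3⟩
    · rintro ⟨m, hm, rfl⟩
      rw [mem_coe, mem_filter, mem_range] at hm
      refine ⟨by omega, by omega, ?_⟩
      simpa using hm.2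
  rw [e2, Set.ncard_image_of_injective _ (add_left_injective 1)]

/-- THE THEOREM OF ERDŐS AND KAC in a residue class, for the progression -/
theorem ek_prog {Q r : ℕ} (hQ : 1 ≤ Q) (hr : 1 ≤ r) (y : ℝ) : Tendsto (fun M : ℕ =>
    (((range M).filter (fun m => ((r + Q * m).primeFactors.card : ℝ) ≤ tr y M)).card : ℝ) / M) atTop
    (𝓝 (Phi y)) := by
  have h1 := cdf_of_char (F := fun M m => ((((r + Q * m).primeFactors.card : ℝ)) - LL M) / Real.sqrt (LL M))
    (fun τ => by
      refine (char_limc hQ hr τ).congr fun M => ?_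
      congr 1
      apply sum_congr rfl
      intro m _
      congr 2
      unfold th
      push_cast
      ring) y
  refine h1.congr' ?_
  filter_upwards [tL.eventually_gt_atTop 0] with M hM
  have hs : 0 < Real.sqrt (LL M) := Real.sqrt_pos.2 hM
  congr 3
  ext m
  rw [mem_filter, mem_filter, div_le_iff₀ hs, sub_le_iff_le_add, add_comm (y * Real.sqrt (LL M)) (LL M)]
  rfl

/-- THE THEOREM OF ERDŐS AND KAC in a residue class -/
theorem ek_class {Q r : ℕ} (hQ : 1 ≤ Q) (hr : 1 ≤ r) (hrQ : r ≤ Q) (y : ℝ) : Tendsto (fun N : ℕ =>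
    cnt (fun n => n % Q = r % Q ∧ (n.primeFactors.card : ℝ) ≤ tr y N) N / N) atTop (𝓝 (Phi y / Q)) := by
  have hQ0 : (0 : ℝ) < Q := by exact_mod_cast hQ
  -- the number of the terms
  set M : ℕ → ℕ := fun N => (N + Q - r) / Q with hM
  have hMt : Tendsto M atTop atTop := by
    rw [tendsto_atTop]
    intro b
    filter_upwards [eventually_ge_atTop (b * Q)] with N hN
    rw [hM]
    simp only
    rw [Nat.le_div_iff_mul_le (by omega)]
    omega
  -- ratio
  have hMN : Tendsto (fun N : ℕ => (M N : ℝ) / N) atTop (𝓝 (1 / Q)) := by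
    have hlow : ∀ᶠ N : ℕ in atTop, (1 / Q : ℝ) - 1 / N ≤ (M N : ℝ) / N ∧ (M N : ℝ) / N ≤ 1 / Q + 1 / N := by
      filter_upwards [eventually_ge_atTop 1] with N hN
      have hN0 : (0 : ℝ) < N := by exact_mod_cast hN
      have h1 : M N * Q ≤ N + Q - r := Nat.div_mul_le_self _ _
      have h2 : N + Q - r < (M N + 1) * Q := by
        have := Nat.lt_succ_self ((N + Q - r) / Q)
        exact (Nat.div_lt_iff_lt_mul (by omega)).1 this
      have h3 : (M N : ℝ) * Q ≤ N + Q := by
        have : M N * Q ≤ N + Q := by omega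
        exact_mod_cast this
      have h4 : (N : ℝ) ≤ ((M N : ℝ) + 1) * Q := by
        have : N ≤ (M N + 1) * Q := by omega
        exact_mod_cast this
      constructor
      · rw [div_sub_div _ _ hQ0.ne' hN0.ne', div_le_div_iff₀ (by positivity) hN0]
        nlinarith
      · rw [div_add_div _ _ hQ0.ne' hN0.ne', div_le_div_iff₀ hN0 (by positivity)]
        nlinarith
    have t1 : Tendsto (fun N : ℕ => (1 / Q : ℝ) - 1 / N) atTop (𝓝 (1 / Q)) := by
      have := tendsto_const_nhds (x := (1 / Q : ℝ)) (f := (atTop : Filter ℕ)) |>.sub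
        (tendsto_one_div_atTop_nhds_zero_nat (𝕜 := ℝ))
      simpa using this
    have t2 : Tendsto (fun N : ℕ => (1 / Q : ℝ) + 1 / N) atTop (𝓝 (1 / Q)) := by
      have := tendsto_const_nhds (x := (1 / Q : ℝ)) (f := (atTop : Filter ℕ)) |>.add
        (tendsto_one_div_atTop_nhds_zero_nat (𝕜 := ℝ))
      simpa using this
    exact tendsto_of_tendsto_of_tendsto_of_le_of_le' t1 t2 (hlow.mono fun _ h => h.1) (hlow.mono fun _ h => h.2)
  -- the terms
  have hcnt : ∀ (N : ℕ) (T : ℝ), cnt (fun n => n % Q = r % Q ∧ (n.primeFactors.card : ℝ) ≤ T) N =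
      (((range (M N)).filter (fun m => ((r + Q * m).primeFactors.card : ℝ) ≤ T)).card : ℝ) := by
    intro N T
    rw [cnt_eq]
    congr 1
    symm
    apply card_bij (fun m _ => r + Q * m)
    · intro m hm
      rw [mem_filter, mem_range] at hm
      rw [mem_filter, mem_Icc]
      refine ⟨⟨by omega, ?_⟩, by simp [Nat.add_mod], hm.2⟩
      have h1 : m + 1 ≤ M N := hm.1
      have h2 : (m + 1) * Q ≤ N + Q - r := by
        rw [← Nat.le_div_iff_mul_le (by omega)]; exact h1
      have h3 : (m + 1) * Q = Q * m + Q := by ring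
      omega
    · intro a _ b _ hab
      have h1 : Q * a = Q * b := by omega
      exact Nat.eq_of_mul_eq_mul_left (by omega) h1
    · intro n hn
      rw [mem_filter, mem_Icc] at hn
      obtain ⟨⟨h1, h2⟩, h3, h4⟩ := hn
      have hge : r ≤ n := by
        by_contra hcon
        rw [Nat.mod_eq_of_lt (by omega : n < Q)] at h3
        rcases Nat.lt_or_ge r Q with h5 | h5
        · rw [Nat.mod_eq_of_lt h5] at h3; omega
        · have h6 : r = Q := by omega
          rw [h6, Nat.mod_self] at h3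
          omega
      have h5 : Q ∣ n - r := (Nat.modEq_iff_dvd' hge).1 h3.symm
      obtain ⟨m, hm⟩ := h5
      refine ⟨m, ?_, by omega⟩
      rw [mem_filter, mem_range]
      have e : r + Q * m = n := by omega
      refine ⟨?_, by rw [e]; exact h4⟩
      have : m + 1 ≤ M N := by
        rw [hM]
        simp only
        rw [Nat.le_div_iff_mul_le (by omega)]
        have h3 : (m + 1) * Q = Q * m + Q := by ring
        omega
      omega
  have hP := fun y => (ek_prog hQ hr y).comp hMt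
  have hlarge : ∀ᶠ N : ℕ in atTop, Real.sqrt N < M N ∧ M N ≤ N := by
    have tq : Tendsto (fun N : ℕ => Real.sqrt N) atTop atTop :=
      Real.tendsto_sqrt_atTop.comp tendsto_natCast_atTop_atTop
    filter_upwards [hMN.eventually (lt_mem_nhds (show (1 : ℝ) / (2 * Q) < 1 / Q by
      apply div_lt_div_of_pos_left one_pos hQ0; linarith)), tq.eventually_gt_atTop (2 * Q), eventually_ge_atTop 1]
      with N h1 h2 h3
    have hN0 : (0 : ℝ) < N := by exact_mod_cast h3
    constructor
    · rw [lt_div_iff₀ hN0] at h1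
      have h4 : Real.sqrt N * Real.sqrt N = N := Real.mul_self_sqrt hN0.le
      have h5 : Real.sqrt N < 1 / (2 * Q) * N := by
        rw [one_div, inv_mul_eq_div, lt_div_iff₀ (by positivity)]
        nlinarith [Real.sqrt_nonneg (N : ℝ)]
      linarith
    · rw [hM]
      simp only
      apply Nat.div_le_of_le_mul
      have : N + (Q - 1) ≤ Q * N := by
        obtain ⟨N', rfl⟩ : ∃ N', N = N' + 1 := ⟨N - 1, by omega⟩
        have h6 : 1 * N' ≤ Q * N' := Nat.mul_le_mul_right _ hQ
        have h7 : Q * (N' + 1) = Q * N' + Q := by ring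
        omega
      omega
  refine sandwich (u := fun N => cnt (fun n => n % Q = r % Q ∧ (n.primeFactors.card : ℝ) ≤ tr y N) N / N)
    (L := fun y => Phi y / Q) (EKPhi_cont.div_const _) y fun η hη => ⟨_, _,
      (by
        have := (hP (y - η)).mul hMN
        rw [mul_one_div] at this
        exact this), (by
        have := (hP (y + η)).mul hMN
        rw [mul_one_div] at this
        exact this), ?_⟩
  filter_upwards [tr_comp (y - η) hη, tr_comp (y + η) hη, hlarge, eventually_ge_atTop 1] with N h1 h2 h3 h4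
  have hN0 : (0 : ℝ) < N := by exact_mod_cast h4
  have g1 := (h1 (M N) h3.1 h3.2).2
  have g2 := (h2 (M N) h3.1 h3.2).1
  rw [sub_add_cancel] at g1
  rw [add_sub_cancel_right] at g2
  have hM0 : (0 : ℝ) < M N := lt_of_le_of_lt (Real.sqrt_nonneg _) h3.1
  simp only [Function.comp]
  rw [hcnt N (tr y N)]
  have m1 : (((range (M N)).filter (fun m => ((r + Q * m).primeFactors.card : ℝ) ≤ tr (y - η) (M N))).card : ℝ) ≤
      (((range (M N)).filter (fun m => ((r + Q * m).primeFactors.card : ℝ) ≤ tr y N)).card : ℝ) := by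
    exact_mod_cast card_le_card (monotone_filter_right _ fun m _ (h : ((r + Q * m).primeFactors.card : ℝ) ≤ _) => h.trans g1)
  have m2 : (((range (M N)).filter (fun m => ((r + Q * m).primeFactors.card : ℝ) ≤ tr y N)).card : ℝ) ≤
      (((range (M N)).filter (fun m => ((r + Q * m).primeFactors.card : ℝ) ≤ tr (y + η) (M N))).card : ℝ) := by
    exact_mod_cast card_le_card (monotone_filter_right _ fun m _ (h : ((r + Q * m).primeFactors.card : ℝ) ≤ _) => h.trans g2)
  rw [div_mul_div_cancel₀ hM0.ne', div_mul_div_cancel₀ hM0.ne']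
  have n1 := (div_le_div_iff_of_pos_right hN0).2 m1
  have n2 := (div_le_div_iff_of_pos_right hN0).2 m2
  constructor <;> linarith

end Pool.Agent.X62.EK
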