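import Pool.Agent.X62.EK.Main

/-! Averages of `∏ z_i ^ ω(L_i(m))` for linear forms `L_i`, over a set of primes. -/

set_option autoImplicit false

namespace Pool.Agent.X62.EK

open Finset

theorem one_class {p a : ℕ} (hp : p.Prime) (ha : ¬ p ∣ a) (q : ℕ) :
    #{b ∈ range p | p ∣ q + a * b} = 1 := by
  haveI : Fact p.Prime := ⟨hp⟩
  have ha0 : (a : ZMod p) ≠ 0 := by
    rw [Ne, ZMod.natCast_eq_zero_iff]; exact ha
  rw [card_eq_one]
  refine ⟨(-(q : ZMod p) * (a : ZMod p)⁻¹).val, ?_⟩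
  ext b
  rw [mem_filter, mem_range, mem_singleton, ← ZMod.natCast_eq_zero_iff]
  push_cast
  constructor
  · rintro ⟨hb, h⟩
    have h1 : (b : ZMod p) = -(q : ZMod p) * (a : ZMod p)⁻¹ := by
      field_simp
      linear_combination h
    rw [← h1, ZMod.val_natCast, Nat.mod_eq_of_lt hb]
  · rintro rfl
    refine ⟨ZMod.val_lt _, ?_⟩
    rw [ZMod.natCast_val, ZMod.cast_id]
    field_simp
    ring

variable {ι : Type} [Fintype ι]

/-- the primes are good for the forms `q i + a i * m` -/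
def Good (a q : ι → ℕ) (p : ℕ) : Prop := p.Prime ∧ (∀ i, ¬ p ∣ a i) ∧
  ∀ i j, i ≠ j → ∀ m, p ∣ q i + a i * m → ¬ p ∣ q j + a j * m

open scoped Classical in
noncomputable def ww (a q : ι → ℕ) (z : ι → ℂ) (p m : ℕ) : ℂ := ∑ i, if p ∣ q i + a i * m then z i - 1 else 0

theorem ww_per (a q : ι → ℕ) (z : ι → ℂ) (p : ℕ) : Function.Periodic (ww a q z p) p := by
  intro m
  unfold ww
  refine sum_congr rfl fun i _ => ?_
  have h : p ∣ q i + a i * (m + p) ↔ p ∣ q i + a i * m := by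
    have e : q i + a i * (m + p) = (q i + a i * m) + a i * p := by ring
    rw [e]
    exact (Nat.dvd_add_left (Dvd.intro_left _ rfl))
  simp only [h]

open scoped Classical in
theorem ww_prod {a q : ι → ℕ} (z : ι → ℂ) {p : ℕ} (hp : Good a q p) (m : ℕ) :
    1 + ww a q z p m = ∏ i, if p ∣ q i + a i * m then z i else 1 := by
  by_cases h : ∃ i, p ∣ q i + a i * m
  · obtain ⟨i, hi⟩ := h
    have h1 : ∀ j, j ≠ i → ¬ p ∣ q j + a j * m := fun j hj => hp.2.2 i j (Ne.symm hj) m hi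
    unfold ww
    rw [sum_eq_single i, prod_eq_single i, if_pos hi, if_pos hi]
    · ring
    · intro j _ hj
      rw [if_neg (h1 j hj)]
    · intro h; exact absurd (mem_univ _) h
    · intro j _ hj
      rw [if_neg (h1 j hj)]
    · intro h; exact absurd (mem_univ _) h
  · push Not at h
    unfold ww
    rw [sum_eq_zero fun i _ => if_neg (h i), prod_eq_one fun i _ => if_neg (h i), add_zero]

theorem ww_norm {a q : ι → ℕ} {z : ι → ℂ} (hz : ∀ i, ‖z i‖ = 1) {p : ℕ} (hp : Good a q p) (m : ℕ) :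
    ‖1 + ww a q z p m‖ ≤ 1 := by
  classical
  rw [ww_prod z hp, norm_prod]
  apply prod_le_one fun _ _ => norm_nonneg _
  intro i _
  split_ifs
  · exact (hz i).le
  · simp

theorem ww_sum {a q : ι → ℕ} (z : ι → ℂ) {p : ℕ} (hp : Good a q p) :
    ∑ b ∈ range p, ww a q z p b = ∑ i, (z i - 1) := by
  classical
  unfold ww
  rw [sum_comm]
  refine sum_congr rfl fun i _ => ?_
  rw [← sum_filter, sum_const]
  have := one_class hp.1 (hp.2.1 i) (q i)
  convert one_smul ℕ (z i - 1)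

theorem ww_abs {a q : ι → ℕ} (z : ι → ℂ) {p : ℕ} (hp : Good a q p) :
    ∑ b ∈ range p, ‖ww a q z p b‖ ≤ ∑ i, ‖z i - 1‖ := by
  classical
  have h1 : ∀ b, ‖ww a q z p b‖ ≤ ∑ i, if p ∣ q i + a i * b then ‖z i - 1‖ else 0 := by
    intro b
    unfold ww
    refine (norm_sum_le _ _).trans (sum_le_sum fun i _ => ?_)
    split_ifs <;> simp
  refine (sum_le_sum fun b _ => h1 b).trans ?_
  rw [sum_comm]
  refine sum_le_sum fun i _ => ?_
  rw [← sum_filter, sum_const]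
  have := one_class hp.1 (hp.2.1 i) (q i)
  have e : #{b ∈ range p | p ∣ q i + a i * b} • ‖z i - 1‖ = ‖z i - 1‖ := by rw [this, one_smul]
  exact e.le

open scoped Classical in
/-- the number of primes of `PP` dividing `q + a m` -/
noncomputable def om (PP : Finset ℕ) (n : ℕ) : ℕ := #{p ∈ PP | p ∣ n}

theorem prod_om {a q : ι → ℕ} (z : ι → ℂ) {PP : Finset ℕ} (hPP : ∀ p ∈ PP, Good a q p) (m : ℕ) :
    ∏ p ∈ PP, (1 + ww a q z p m) = ∏ i, z i ^ om PP (q i + a i * m) := by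
  classical
  rw [prod_congr rfl fun p hp => ww_prod z (hPP p hp) m, prod_comm]
  refine prod_congr rfl fun i _ => ?_
  rw [prod_ite, prod_const_one, mul_one, prod_const]
  rfl

theorem sq_sum {PP : Finset ℕ} (hPP : ∀ p ∈ PP, p.Prime) : ∑ p ∈ PP, (1 : ℝ) / (p : ℝ) ^ 2 ≤ 2 := by
  have hS : Summable (fun n : ℕ => (1 : ℝ) / (n : ℝ) ^ 2) := Real.summable_one_div_nat_pow.2 (by norm_num)
  refine (hS.sum_le_tsum PP (fun _ _ => by positivity)).trans ?_
  rw [hasSum_zeta_two.tsum_eq]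
  have := Real.pi_lt_d2
  have := Real.pi_pos
  nlinarith

/-- the average over the terms of the progressions -/
theorem avg_forms {a q : ι → ℕ} {z : ι → ℂ} (hz : ∀ i, ‖z i‖ = 1) {PP : Finset ℕ} (hPP : ∀ p ∈ PP, Good a q p)
    {B : ℝ} (hB : ∑ i, ‖z i - 1‖ ≤ B) (hB1 : B ≤ 1) {M : ℕ} (hM : 1 ≤ M) (j : ℕ) :
    ‖(∑ m ∈ range M, ∏ i, z i ^ om PP (q i + a i * m)) / M -
        Complex.exp ((∑ i, (z i - 1)) * ((∑ p ∈ PP, (1 : ℝ) / p : ℝ) : ℂ))‖ ≤
      2 * (Real.exp (Real.exp 1 * (B * ∑ p ∈ PP, (1 : ℝ) / p)) / Real.exp 1 ^ j) + ((#PP : ℝ) + 1) ^ j / M +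
        2 * B ^ 2 := by
  have hM0 : (0 : ℝ) < M := by exact_mod_cast hM
  have hM0' : (M : ℂ) ≠ 0 := by exact_mod_cast hM0.ne'
  have hB0 : 0 ≤ B := (sum_nonneg fun _ _ => norm_nonneg _).trans hB
  have h1 := main (w := ww a q z) (fun p hp => (hPP p hp).1) (fun p _ => ww_per a q z p)
    (fun p hp m => ww_norm hz (hPP p hp) m) hB0 hB1 (fun p hp => (ww_abs z (hPP p hp)).trans hB) j M
  rw [sum_congr rfl fun m _ => prod_om z hPP m] at h1
  have e1 : ∏ p ∈ PP, (1 + (∑ b ∈ range p, ww a q z p b) / p) = ∏ p ∈ PP, (1 + (∑ i, (z i - 1)) / (p : ℂ)) :=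
    prod_congr rfl fun p hp => by rw [ww_sum z (hPP p hp)]
  rw [e1] at h1
  have h2 := prod_exp (T := PP) (A := fun p => (∑ i, (z i - 1)) / (p : ℂ)) (fun p hp => by
      have hp0 : (0 : ℝ) < p := by exact_mod_cast (hPP p hp).1.pos
      have hp0' : (p : ℂ) ≠ 0 := by exact_mod_cast hp0.ne'
      have e2 : 1 + (∑ i, (z i - 1)) / (p : ℂ) = (∑ b ∈ range p, (1 + ww a q z p b)) / p := by
        rw [sum_add_distrib, ww_sum z (hPP p hp), sum_const, card_range, nsmul_eq_mul, mul_one]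
        field_simp
      rw [e2, norm_div, Complex.norm_natCast, div_le_one hp0]
      calc _ ≤ ∑ b ∈ range p, ‖1 + ww a q z p b‖ := norm_sum_le _ _
        _ ≤ ∑ _b ∈ range p, (1 : ℝ) := sum_le_sum fun b _ => ww_norm hz (hPP p hp) b
        _ = p := by simp) (fun p hp => by
      have hp0 : (0 : ℝ) < p := by exact_mod_cast (hPP p hp).1.pos
      have hp1 : (1 : ℝ) ≤ p := by exact_mod_cast (hPP p hp).1.one_lt.le
      rw [norm_div, Complex.norm_natCast, div_le_one hp0]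
      exact ((norm_sum_le _ _).trans (hB.trans hB1)).trans hp1)
  have e3 : ∑ p ∈ PP, (∑ i, (z i - 1)) / (p : ℂ) = (∑ i, (z i - 1)) * ((∑ p ∈ PP, (1 : ℝ) / p : ℝ) : ℂ) := by
    push_cast
    rw [mul_sum]
    exact sum_congr rfl fun p _ => by ring
  rw [e3] at h2
  have h3 : ∑ p ∈ PP, ‖(∑ i, (z i - 1)) / (p : ℂ)‖ ^ 2 ≤ 2 * B ^ 2 := by
    calc ∑ p ∈ PP, ‖(∑ i, (z i - 1)) / (p : ℂ)‖ ^ 2 ≤ ∑ p ∈ PP, B ^ 2 * (1 / (p : ℝ) ^ 2) := by
          apply sum_le_sum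
          intro p _
          rw [norm_div, Complex.norm_natCast, div_pow, mul_one_div]
          apply div_le_div_of_nonneg_right _ (by positivity)
          exact pow_le_pow_left₀ (norm_nonneg _) ((norm_sum_le _ _).trans hB) 2
      _ = B ^ 2 * ∑ p ∈ PP, 1 / (p : ℝ) ^ 2 := by rw [mul_sum]
      _ ≤ B ^ 2 * 2 := mul_le_mul_of_nonneg_left (sq_sum fun p hp => (hPP p hp).1) (by positivity)
      _ = 2 * B ^ 2 := by ring
  have e4 : (∑ m ∈ range M, ∏ i, z i ^ om PP (q i + a i * m)) / M -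
        Complex.exp ((∑ i, (z i - 1)) * ((∑ p ∈ PP, (1 : ℝ) / p : ℝ) : ℂ)) =
      (∑ m ∈ range M, ∏ i, z i ^ om PP (q i + a i * m) - M * ∏ p ∈ PP, (1 + (∑ i, (z i - 1)) / (p : ℂ))) / M +
      (∏ p ∈ PP, (1 + (∑ i, (z i - 1)) / (p : ℂ)) -
        Complex.exp ((∑ i, (z i - 1)) * ((∑ p ∈ PP, (1 : ℝ) / p : ℝ) : ℂ))) := by
    field_simp
    ring
  rw [e4]
  refine (norm_add_le _ _).trans (add_le_add ?_ (h2.trans h3))
  rw [norm_div, Complex.norm_natCast, div_le_iff₀ hM0]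
  refine h1.trans (le_of_eq ?_)
  field_simp

end Pool.Agent.X62.EK
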