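import Pool.Agent.X62.EK.CharLim

/-! The limit of the characteristic function. -/

set_option autoImplicit false

namespace Pool.Agent.X62.EK

open Finset Filter Topology

noncomputable def th (τ : ℝ) (N : ℕ) : ℝ := τ / Real.sqrt (LL N)

theorem t_logL (C : ℝ) (K : ℝ) : Tendsto (fun N : ℕ => K * ((C + Real.log (LL N)) / Real.sqrt (LL N))) atTop (𝓝 0) := by
  have h1 : Tendsto (fun L : ℝ => C / Real.sqrt L) atTop (𝓝 0) :=
    tendsto_const_nhds.div_atTop Real.tendsto_sqrt_atTop
  have h2 := ((h1.add t_log_sqrt).comp tL).const_mul K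
  rw [add_zero, mul_zero] at h2
  refine h2.congr fun N => ?_
  simp only [Function.comp]
  ring

theorem t_exp (K : ℝ) : Tendsto (fun N : ℕ => Real.exp (K * Real.sqrt (LL N) - LL N)) atTop (𝓝 0) := by
  apply Real.tendsto_exp_atBot.comp
  have h1 : Tendsto (fun L : ℝ => Real.sqrt L * (Real.sqrt L - K)) atTop atTop := by
    apply Tendsto.atTop_mul_atTop₀ Real.tendsto_sqrt_atTop
    exact tendsto_atTop_add_const_right _ (-K) Real.tendsto_sqrt_atTop
  have h2 := tendsto_neg_atTop_atBot.comp (h1.comp tL)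
  refine h2.congr' ?_
  filter_upwards [tL.eventually_ge_atTop 0] with N hN
  simp only [Function.comp]
  have := Real.mul_self_sqrt hN
  nlinarith

theorem t_exp_half : Tendsto (fun N : ℕ => Real.exp (-(Real.log N / 2))) atTop (𝓝 0) := by
  apply Real.tendsto_exp_neg_atTop_nhds_zero.comp
  exact tl.atTop_div_const (by norm_num)

theorem t_inv (K : ℝ) : Tendsto (fun N : ℕ => K / LL N) atTop (𝓝 0) := tendsto_const_nhds.div_atTop tL

theorem t_th (τ : ℝ) : Tendsto (th τ) atTop (𝓝 0) :=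
  tendsto_const_nhds.div_atTop (Real.tendsto_sqrt_atTop.comp tL)

/-- comparison with the exponential -/
theorem lim1 (τ : ℝ) : Tendsto (fun N : ℕ =>
    (∑ n ∈ Icc 1 N, Complex.exp (Complex.I * (th τ N : ℝ)) ^ n.primeFactors.card) / (N : ℂ) -
      Complex.exp ((Complex.exp (Complex.I * (th τ N : ℝ)) - 1) * (WW N : ℂ))) atTop (𝓝 0) := by
  obtain ⟨C, hC, hev⟩ := sum_P1
  have hb : Tendsto (fun N : ℕ => |τ| * ((C + Real.log (LL N)) / Real.sqrt (LL N)) +
      (2 * Real.exp ((6 * |τ|) * Real.sqrt (LL N) - LL N) + Real.exp (-(Real.log N / 2)) +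
        2 * τ ^ 2 / LL N)) atTop (𝓝 0) := by
    have h1 := (t_logL C |τ|).add ((((t_exp (6 * |τ|)).const_mul 2).add t_exp_half).add (t_inv (2 * τ ^ 2)))
    simpa using h1
  refine squeeze_zero_norm' ?_ hb
  have e1 : ∀ᶠ N : ℕ in atTop, C + Real.log (LL N) ≤ LL N := by
    have h1 : Tendsto (fun L : ℝ => (C + Real.log L) / L) atTop (𝓝 0) := by
      have h2 := Real.isLittleO_log_id_atTop.tendsto_div_nhds_zero
      have h3 : Tendsto (fun L : ℝ => C / L) atTop (𝓝 0) := tendsto_const_nhds.div_atTop tendsto_id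
      have h4 := h3.add h2
      rw [add_zero] at h4
      refine h4.congr fun L => ?_
      simp only [id]
      ring
    filter_upwards [(h1.comp tL).eventually_le_const (show (0 : ℝ) < 1 by norm_num),
      tL.eventually_gt_atTop 0] with N h5 h6
    simp only [Function.comp] at h5
    rwa [div_le_one h6] at h5
  have e2 : ∀ᶠ N : ℕ in atTop, LL N + 1 ≤ Real.log N / 8 := by
    have h2 := Real.isLittleO_log_id_atTop.tendsto_div_nhds_zero
    filter_upwards [(h2.comp tl).eventually_le_const (show (0 : ℝ) < 1 / 16 by norm_num),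
      tl.eventually_ge_atTop 16] with N h5 h6
    simp only [Function.comp, id] at h5
    rw [div_le_iff₀ (by linarith)] at h5
    have : LL N = Real.log (Real.log N) := rfl
    rw [this]
    linarith
  have e3 : ∀ᶠ N : ℕ in atTop, |th τ N| ≤ 1 := by
    have := (t_th τ).abs
    rw [abs_zero] at this
    exact this.eventually_le_const one_pos
  filter_upwards [hev, e1, e2, e3, tL.eventually_ge_atTop 2, eventually_ge_atTop 3] with N h1 h2 h3 h4 h5 h6
  obtain ⟨⟨hy, hW⟩, hS, hY⟩ := h1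
  have hN0 : (0 : ℝ) < N := by exact_mod_cast (by omega : 0 < N)
  have s1 := step1 (by omega : 1 ≤ N) hy (th τ N)
  have s2 := step2 (by omega : 1 ≤ N) h4 ⌈LL N⌉₊
  set L := LL N with hL
  have hsL : 0 < Real.sqrt L := Real.sqrt_pos.2 (by linarith)
  have hss : Real.sqrt L * Real.sqrt L = L := Real.mul_self_sqrt (by linarith)
  have hth : |th τ N| = |τ| / Real.sqrt L := by
    unfold th
    rw [abs_div, abs_of_pos hsL]
  have key := norm_sub_le_norm_sub_add_norm_sub
    ((∑ n ∈ Icc 1 N, Complex.exp (Complex.I * (th τ N : ℝ)) ^ n.primeFactors.card) / (N : ℂ))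
    ((∑ n ∈ Icc 1 N, Complex.exp (Complex.I * (th τ N : ℝ)) ^ om (P1 (yy N)) n) / (N : ℂ))
    (Complex.exp ((Complex.exp (Complex.I * (th τ N : ℝ)) - 1) * (WW N : ℂ)))
  refine key.trans ?_
  refine add_le_add (s1.trans ?_) (s2.trans ?_)
  · rw [hth]
    have := mul_le_mul_of_nonneg_left hS (show 0 ≤ |τ| / Real.sqrt L by positivity)
    refine this.trans (le_of_eq ?_)
    ring
  · have hceil : L ≤ (⌈L⌉₊ : ℝ) := Nat.le_ceil _
    have hceil2 : (⌈L⌉₊ : ℝ) < L + 1 := Nat.ceil_lt_add_one (by linarith)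
    obtain ⟨w1, w2⟩ := abs_le.1 hW
    have hW2 : WW N ≤ 2 * L := by linarith
    refine add_le_add (add_le_add ?_ ?_) ?_
    · apply mul_le_mul_of_nonneg_left _ (by norm_num)
      rw [← Real.exp_nat_mul, mul_one, ← Real.exp_sub]
      apply Real.exp_le_exp.2
      have h7 : Real.exp 1 * (|th τ N| * WW N) ≤ 6 * |τ| * Real.sqrt L := by
        have h8 : |th τ N| * WW N ≤ 2 * |τ| * Real.sqrt L := by
          calc |th τ N| * WW N ≤ |th τ N| * (2 * L) := mul_le_mul_of_nonneg_left hW2 (abs_nonneg _)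
            _ = |τ| / Real.sqrt L * (2 * (Real.sqrt L * Real.sqrt L)) := by rw [hth, hss]
            _ = 2 * |τ| * Real.sqrt L := by field_simp
        have h9 : Real.exp 1 ≤ 3 := by linarith [Real.exp_one_lt_d9]
        have h10 : 0 ≤ 2 * |τ| * Real.sqrt L := by positivity
        calc Real.exp 1 * (|th τ N| * WW N) ≤ Real.exp 1 * (2 * |τ| * Real.sqrt L) :=
              mul_le_mul_of_nonneg_left h8 (Real.exp_pos _).le
          _ ≤ 3 * (2 * |τ| * Real.sqrt L) := mul_le_mul_of_nonneg_right h9 h10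
          _ = _ := by ring
      linarith
    · rw [div_le_iff₀ hN0]
      have h7 : ((yy N : ℝ) + 1) ^ ⌈L⌉₊ ≤ Real.exp (Real.log N / (4 * L) + 1) ^ ⌈L⌉₊ :=
        pow_le_pow_left₀ (by positivity) hY _
      refine h7.trans ?_
      rw [← Real.exp_nat_mul]
      have h8 : Real.exp (-(Real.log N / 2)) * N = Real.exp (Real.log N / 2) := by
        have : (N : ℝ) = Real.exp (Real.log N) := (Real.exp_log hN0).symm
        conv_lhs => rw [this]
        rw [← Real.exp_add, Real.log_exp]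
        congr 1; ring
      rw [h8]
      apply Real.exp_le_exp.2
      have h9 : 0 ≤ Real.log N := Real.log_natCast_nonneg N
      have h10 : Real.log N / (4 * L) ≤ Real.log N / 8 := by
        apply div_le_div_of_nonneg_left h9 (by norm_num) (by linarith)
      have h11 : (⌈L⌉₊ : ℝ) * (Real.log N / (4 * L) + 1) ≤ (L + 1) * (Real.log N / (4 * L) + 1) :=
        mul_le_mul_of_nonneg_right hceil2.le (by positivity)
      have h12 : (L + 1) * (Real.log N / (4 * L) + 1) = Real.log N / 4 + Real.log N / (4 * L) + (L + 1) := by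
        have : L ≠ 0 := by linarith
        field_simp
      linarith
    · have h7 : 2 * |th τ N| ^ 2 = 2 * τ ^ 2 / L := by
        rw [hth, div_pow, sq_abs, Real.sq_sqrt (by linarith)]; ring
      exact h7.le

/-- the exponent -/
theorem lim2 (τ : ℝ) : Tendsto (fun N : ℕ => (Complex.exp (Complex.I * (th τ N : ℝ)) - 1) * (WW N : ℂ) -
    Complex.I * (th τ N : ℝ) * (LL N : ℂ)) atTop (𝓝 (-(τ : ℂ) ^ 2 / 2)) := by
  obtain ⟨C, hC, hev⟩ := sum_P1
  rw [tendsto_iff_norm_sub_tendsto_zero]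
  have hb : Tendsto (fun N : ℕ => |τ| * ((C + Real.log (LL N)) / Real.sqrt (LL N)) +
      (τ ^ 2 * ((C + Real.log (LL N)) / Real.sqrt (LL N)) + |τ| ^ 3 * 2 * (|th 1 N|))) atTop (𝓝 0) := by
    have h0 : Tendsto (fun N => |th 1 N|) atTop (𝓝 0) := by simpa using (t_th 1).abs
    have h1 := (t_logL C |τ|).add ((t_logL C (τ ^ 2)).add (h0.const_mul (|τ| ^ 3 * 2)))
    simpa using h1
  refine squeeze_zero_norm' ?_ hb
  have e1 : ∀ᶠ N : ℕ in atTop, C + Real.log (LL N) ≤ LL N := by
    have h1 : Tendsto (fun L : ℝ => (C + Real.log L) / L) atTop (𝓝 0) := by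
      have h2 := Real.isLittleO_log_id_atTop.tendsto_div_nhds_zero
      have h3 : Tendsto (fun L : ℝ => C / L) atTop (𝓝 0) := tendsto_const_nhds.div_atTop tendsto_id
      have h4 := h3.add h2
      rw [add_zero] at h4
      refine h4.congr fun L => ?_
      simp only [id]
      ring
    filter_upwards [(h1.comp tL).eventually_le_const (show (0 : ℝ) < 1 by norm_num),
      tL.eventually_gt_atTop 0] with N h5 h6
    simp only [Function.comp] at h5
    rwa [div_le_one h6] at h5
  have e3 : ∀ᶠ N : ℕ in atTop, |th τ N| ≤ 1 := by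
    have := (t_th τ).abs
    rw [abs_zero] at this
    exact this.eventually_le_const one_pos
  filter_upwards [hev, e1, e3, tL.eventually_ge_atTop 2] with N h1 h2 h4 h5
  obtain ⟨⟨hy, hW⟩, _, _⟩ := h1
  rw [norm_norm]
  set L := LL N with hL
  have hsL : 0 < Real.sqrt L := Real.sqrt_pos.2 (by linarith)
  have hs1 : 1 ≤ Real.sqrt L := Real.one_le_sqrt.2 (by linarith)
  have hss : Real.sqrt L * Real.sqrt L = L := Real.mul_self_sqrt (by linarith)
  have hth : |th τ N| = |τ| / Real.sqrt L := by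
    unfold th
    rw [abs_div, abs_of_pos hsL]
  have hth1 : |th 1 N| = 1 / Real.sqrt L := by
    unfold th
    rw [abs_div, abs_of_pos hsL, abs_one]
  have hsq : (th τ N) ^ 2 * L = τ ^ 2 := by
    have h0 : th τ N = τ / Real.sqrt L := rfl
    rw [h0, div_pow, Real.sq_sqrt (by linarith)]
    have hL0 : L ≠ 0 := by linarith
    field_simp
  set θ := th τ N with hθ
  have hx : ‖Complex.I * (θ : ℂ)‖ ≤ 1 := by
    rw [norm_mul, Complex.norm_I, one_mul, Complex.norm_real, Real.norm_eq_abs]; exact h4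
  have hexp := Complex.exp_bound hx (n := 3) (by norm_num)
  have hnorm : ‖Complex.I * (θ : ℂ)‖ = |θ| := by
    rw [norm_mul, Complex.norm_I, one_mul, Complex.norm_real, Real.norm_eq_abs]
  rw [hnorm] at hexp
  have hr : ‖Complex.exp (Complex.I * θ) - 1 - Complex.I * θ + θ ^ 2 / 2‖ ≤ |θ| ^ 3 := by
    have e : Complex.exp (Complex.I * θ) - 1 - Complex.I * θ + θ ^ 2 / 2 =
        Complex.exp (Complex.I * θ) - ∑ m ∈ range 3, (Complex.I * (θ : ℂ)) ^ m / (m.factorial : ℂ) := by
      simp only [sum_range_succ, sum_range_zero, Nat.factorial]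
      have : (Complex.I * (θ : ℂ)) ^ 2 = -(θ : ℂ) ^ 2 := by rw [mul_pow, Complex.I_sq]; ring
      rw [this]
      push_cast
      ring
    rw [e]
    refine hexp.trans ?_
    have : ((Nat.succ 3 : ℕ) : ℝ) * (((Nat.factorial 3 : ℕ) : ℝ) * ((3 : ℕ) : ℝ))⁻¹ ≤ 1 := by
      norm_num [Nat.factorial]
    exact mul_le_of_le_one_right (by positivity) this
  obtain ⟨w1, w2⟩ := abs_le.1 hW
  have hD0 : 0 ≤ C + Real.log L := (abs_nonneg _).trans hW
  have hW0 : |WW N| ≤ 2 * L := by rw [abs_le]; constructor <;> linarith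
  have e : (Complex.exp (Complex.I * θ) - 1) * (WW N : ℂ) - Complex.I * θ * (L : ℂ) - -(τ : ℂ) ^ 2 / 2 =
      Complex.I * θ * ((WW N - L : ℝ) : ℂ) + (-((θ ^ 2 / 2 * (WW N - L) : ℝ) : ℂ) +
        (Complex.exp (Complex.I * θ) - 1 - Complex.I * θ + θ ^ 2 / 2) * (WW N : ℂ)) := by
    have h7 : (τ : ℂ) ^ 2 = (θ : ℂ) ^ 2 * (L : ℂ) := by rw [← Complex.ofReal_pow, ← hsq]; push_cast; ring
    rw [h7]
    push_cast
    ring
  rw [e]
  refine (norm_add_le _ _).trans (add_le_add ?_ ((norm_add_le _ _).trans (add_le_add ?_ ?_)))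
  · rw [norm_mul, hnorm, Complex.norm_real, Real.norm_eq_abs, hth]
    calc |τ| / Real.sqrt L * |WW N - L| ≤ |τ| / Real.sqrt L * (C + Real.log L) :=
          mul_le_mul_of_nonneg_left hW (by positivity)
      _ = _ := by ring
  · rw [norm_neg, Complex.norm_real, Real.norm_eq_abs, abs_mul, abs_of_nonneg (by positivity : 0 ≤ θ ^ 2 / 2)]
    have h8 : θ ^ 2 / 2 ≤ τ ^ 2 / Real.sqrt L := by
      have h9 : θ ^ 2 = τ ^ 2 / L := by
        rw [eq_div_iff (by linarith)]; exact hsq
      rw [h9]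
      have h10 : τ ^ 2 / L ≤ τ ^ 2 / Real.sqrt L := by
        apply div_le_div_of_nonneg_left (by positivity) hsL
        nlinarith
      have h11 : 0 ≤ τ ^ 2 / L := by positivity
      linarith
    calc θ ^ 2 / 2 * |WW N - L| ≤ τ ^ 2 / Real.sqrt L * (C + Real.log L) :=
          mul_le_mul h8 hW (abs_nonneg _) (by positivity)
      _ = _ := by ring
  · rw [norm_mul, Complex.norm_real, Real.norm_eq_abs]
    calc _ ≤ |θ| ^ 3 * (2 * L) := mul_le_mul hr hW0 (abs_nonneg _) (by positivity)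
      _ = |τ| ^ 3 * 2 * (1 / Real.sqrt L) := by
          rw [hth, div_pow]
          have h9 : Real.sqrt L ^ 3 = L * Real.sqrt L := by
            calc Real.sqrt L ^ 3 = (Real.sqrt L * Real.sqrt L) * Real.sqrt L := by ring
              _ = _ := by rw [hss]
          rw [h9]
          have hL0 : L ≠ 0 := by linarith
          field_simp
      _ = _ := by rw [hth1]

/-- THE CHARACTERISTIC FUNCTION -/
theorem char_lim (τ : ℝ) : Tendsto (fun N : ℕ =>
    (∑ n ∈ Icc 1 N, Complex.exp (Complex.I * ((th τ N * ((n.primeFactors.card : ℝ) - LL N) : ℝ) : ℂ))) / (N : ℂ))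
    atTop (𝓝 (Complex.exp (-(τ : ℂ) ^ 2 / 2))) := by
  have h1 := lim1 τ
  have h2 := (Complex.continuous_exp.tendsto _).comp (lim2 τ)
  have h3 : Tendsto (fun N : ℕ => Complex.exp (-(Complex.I * (th τ N : ℝ) * (LL N : ℂ))) *
      ((∑ n ∈ Icc 1 N, Complex.exp (Complex.I * (th τ N : ℝ)) ^ n.primeFactors.card) / (N : ℂ) -
      Complex.exp ((Complex.exp (Complex.I * (th τ N : ℝ)) - 1) * (WW N : ℂ)))) atTop (𝓝 0) := by
    rw [tendsto_zero_iff_norm_tendsto_zero] at h1 ⊢
    refine h1.congr fun N => ?_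
    rw [norm_mul]
    have : ‖Complex.exp (-(Complex.I * (th τ N : ℝ) * (LL N : ℂ)))‖ = 1 := by
      have e : -(Complex.I * (th τ N : ℝ) * (LL N : ℂ)) = ((-(th τ N * LL N) : ℝ) : ℂ) * Complex.I := by
        push_cast; ring
      rw [e]
      exact Complex.norm_exp_ofReal_mul_I _
    rw [this, one_mul]
  have h4 := h3.add h2
  rw [zero_add] at h4
  refine h4.congr fun N => ?_
  simp only [Function.comp]
  have e1 : Complex.exp ((Complex.exp (Complex.I * (th τ N : ℝ)) - 1) * (WW N : ℂ) -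
      Complex.I * (th τ N : ℝ) * (LL N : ℂ)) = Complex.exp (-(Complex.I * (th τ N : ℝ) * (LL N : ℂ))) *
      Complex.exp ((Complex.exp (Complex.I * (th τ N : ℝ)) - 1) * (WW N : ℂ)) := by
    rw [← Complex.exp_add]; congr 1; ring
  rw [e1, mul_sub, sub_add_cancel, mul_div_assoc', mul_sum]
  congr 1
  apply sum_congr rfl
  intro n _
  rw [← Complex.exp_nat_mul, ← Complex.exp_add]
  congr 1
  push_cast
  ring

end Pool.Agent.X62.EK
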