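import Pool.Agent.X62.EK.Base

/-! The fundamental estimate for averages of products of periodic functions. -/

set_option autoImplicit false

namespace Pool.Agent.X62.EK

open Finset

theorem seg_real {P : ℕ} (hP : 0 < P) {F : ℕ → ℝ} (hF : Function.Periodic F P) (hF0 : ∀ m, 0 ≤ F m) (M : ℕ) :
    ∑ m ∈ range M, F m ≤ (M / P + 1) * ∑ a ∈ range P, F a := by
  have h := sum_seg hP (F := fun m => (F m : ℂ)) (fun m => by simp only; rw [hF m]) M
  have e1 : ∑ m ∈ range M, (F m : ℂ) - (M / P : ℝ) * ∑ a ∈ range P, (F a : ℂ) =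
      ((∑ m ∈ range M, F m - (M / P : ℝ) * ∑ a ∈ range P, F a : ℝ) : ℂ) := by push_cast; ring
  rw [e1, Complex.norm_real, Real.norm_eq_abs] at h
  have e2 : ∑ a ∈ range P, ‖(F a : ℂ)‖ = ∑ a ∈ range P, F a := sum_congr rfl fun a _ => by
    rw [Complex.norm_real, Real.norm_eq_abs, abs_of_nonneg (hF0 a)]
  rw [e2] at h
  have := (abs_le.1 h).2
  linarith

section

variable {PP : Finset ℕ} {w : ℕ → ℕ → ℂ} {B : ℝ}

theorem one_set {S : Finset ℕ} (hS : ∀ p ∈ S, p.Prime) (hper : ∀ p ∈ S, Function.Periodic (w p) p)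
    (hB0 : 0 ≤ B) (hB1 : B ≤ 1) (hB : ∀ p ∈ S, ∑ a ∈ range p, ‖w p a‖ ≤ B) (M : ℕ) :
    ‖∑ m ∈ range M, ∏ p ∈ S, w p m - M * ∏ p ∈ S, ((∑ a ∈ range p, w p a) / p)‖ ≤ 1 := by
  obtain ⟨h1, h2⟩ := prod_per hS hper
  have hP : 0 < ∏ p ∈ S, p := prod_pos fun p hp => (hS p hp).pos
  have h3 := sum_seg hP h1 M
  rw [h2] at h3
  obtain ⟨_, h4⟩ := prod_per hS (w := fun p m => ‖w p m‖) (fun p hp m => by simp only; rw [hper p hp m])
  have e1 : ∑ a ∈ range (∏ p ∈ S, p), ‖∏ p ∈ S, w p a‖ = ∏ p ∈ S, ∑ a ∈ range p, ‖w p a‖ := by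
    rw [← h4]
    exact sum_congr rfl fun a _ => norm_prod _ _
  rw [e1] at h3
  have e2 : ((M / (∏ p ∈ S, p : ℕ) : ℝ) : ℂ) * ∏ p ∈ S, ∑ a ∈ range p, w p a =
      M * ∏ p ∈ S, ((∑ a ∈ range p, w p a) / p) := by
    rw [prod_div_distrib]
    push_cast
    ring
  rw [e2] at h3
  refine h3.trans ?_
  calc ∏ p ∈ S, ∑ a ∈ range p, ‖w p a‖ ≤ ∏ _p ∈ S, (1 : ℝ) :=
        prod_le_prod (fun p _ => sum_nonneg fun _ _ => norm_nonneg _) fun p hp => (hB p hp).trans hB1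
    _ = 1 := prod_const_one

theorem one_abs {S : Finset ℕ} (hS : ∀ p ∈ S, p.Prime) (hper : ∀ p ∈ S, Function.Periodic (w p) p)
    (hB0 : 0 ≤ B) (hB1 : B ≤ 1) (hB : ∀ p ∈ S, ∑ a ∈ range p, ‖w p a‖ ≤ B) (M : ℕ) :
    ∑ m ∈ range M, ∏ p ∈ S, ‖w p m‖ ≤ M * ∏ p ∈ S, (B * (1 / p)) + 1 := by
  obtain ⟨h1, h2⟩ := prod_per hS (w := fun p m => ‖w p m‖) (fun p hp m => by simp only; rw [hper p hp m])
  have hP : 0 < ∏ p ∈ S, p := prod_pos fun p hp => (hS p hp).pos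
  have h3 := seg_real hP h1 (fun m => prod_nonneg fun _ _ => norm_nonneg _) M
  rw [h2] at h3
  refine h3.trans ?_
  have hPr : (0 : ℝ) < (∏ p ∈ S, p : ℕ) := by exact_mod_cast hP
  have h5 : ∏ p ∈ S, ∑ a ∈ range p, ‖w p a‖ ≤ ∏ _p ∈ S, B :=
    prod_le_prod (fun p _ => sum_nonneg fun _ _ => norm_nonneg _) hB
  have h6 : ∏ _p ∈ S, B ≤ 1 := prod_le_one (fun _ _ => hB0) fun _ _ => hB1
  have h7 : 0 ≤ ∏ p ∈ S, ∑ a ∈ range p, ‖w p a‖ := prod_nonneg fun p _ => sum_nonneg fun _ _ => norm_nonneg _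
  rw [add_mul, one_mul]
  refine add_le_add ?_ (h5.trans h6)
  have e : (M : ℝ) * ∏ p ∈ S, (B * (1 / p)) = M / (∏ p ∈ S, p : ℕ) * ∏ _p ∈ S, B := by
    rw [prod_mul_distrib]
    simp only [one_div, prod_inv_distrib]
    push_cast
    ring
  rw [e]
  exact mul_le_mul_of_nonneg_left h5 (by positivity)

theorem main (hPP : ∀ p ∈ PP, p.Prime) (hper : ∀ p ∈ PP, Function.Periodic (w p) p)
    (h1 : ∀ p ∈ PP, ∀ m, ‖1 + w p m‖ ≤ 1) (hB0 : 0 ≤ B) (hB1 : B ≤ 1)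
    (hB : ∀ p ∈ PP, ∑ a ∈ range p, ‖w p a‖ ≤ B) (j M : ℕ) :
    ‖∑ m ∈ range M, ∏ p ∈ PP, (1 + w p m) - M * ∏ p ∈ PP, (1 + (∑ a ∈ range p, w p a) / p)‖ ≤
      2 * M * (Real.exp (Real.exp 1 * (B * ∑ p ∈ PP, (1 : ℝ) / p)) / Real.exp 1 ^ j) + ((#PP : ℝ) + 1) ^ j := by
  classical
  set A : ℕ → ℂ := fun p => (∑ a ∈ range p, w p a) / p with hA
  set Q : ℝ := Real.exp (Real.exp 1 * (B * ∑ p ∈ PP, (1 : ℝ) / p)) / Real.exp 1 ^ j with hQ
  have hsub : ∀ i, ∀ S ∈ powersetCard i PP, S ⊆ PP := fun i S hS => (mem_powersetCard.1 hS).1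
  -- the mean values are in the unit disc
  have hA1 : ∀ p ∈ PP, ‖1 + A p‖ ≤ 1 := by
    intro p hp
    have hp0 : (0 : ℝ) < p := by exact_mod_cast (hPP p hp).pos
    have hp0' : (p : ℂ) ≠ 0 := by exact_mod_cast hp0.ne'
    have e1 : 1 + A p = (∑ a ∈ range p, (1 + w p a)) / p := by
      rw [hA, sum_add_distrib, sum_const, card_range, nsmul_eq_mul, mul_one]
      field_simp
    rw [e1, norm_div, Complex.norm_natCast, div_le_one hp0]
    calc ‖∑ a ∈ range p, (1 + w p a)‖ ≤ ∑ a ∈ range p, ‖1 + w p a‖ := norm_sum_le _ _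
      _ ≤ ∑ _a ∈ range p, (1 : ℝ) := sum_le_sum fun a _ => h1 p hp a
      _ = p := by simp
  have hAB : ∀ p ∈ PP, ‖A p‖ ≤ B * (1 / p) := by
    intro p hp
    have hp0 : (0 : ℝ) < p := by exact_mod_cast (hPP p hp).pos
    rw [hA]
    simp only
    rw [norm_div, Complex.norm_natCast, mul_one_div]
    exact div_le_div_of_nonneg_right ((norm_sum_le _ _).trans (hB p hp)) hp0.le
  have hes : ∀ x : ℕ → ℝ, (∀ p ∈ PP, 0 ≤ x p ∧ x p ≤ B * (1 / p)) → es x j PP ≤ Q := by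
    intro x hx
    refine (es_le (fun p hp => (hx p hp).1) j (Real.exp_pos 1)).trans ?_
    rw [hQ]
    apply div_le_div_of_nonneg_right _ (by positivity)
    apply Real.exp_le_exp.2
    apply mul_le_mul_of_nonneg_left _ (Real.exp_pos 1).le
    rw [mul_sum]
    exact sum_le_sum fun p hp => (hx p hp).2
  -- step 1
  have s1 : ‖∑ m ∈ range M, (∏ p ∈ PP, (1 + w p m) - ∑ i ∈ range j, es (fun p => w p m) i PP)‖ ≤
      M * Q + (#PP).choose j := by
    refine (norm_sum_le _ _).trans ((sum_le_sum fun m _ => expand (fun p hp => h1 p hp m) j).trans ?_)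
    unfold es
    rw [sum_comm]
    calc ∑ S ∈ powersetCard j PP, ∑ m ∈ range M, ∏ p ∈ S, ‖w p m‖
        ≤ ∑ S ∈ powersetCard j PP, (M * ∏ p ∈ S, (B * (1 / p)) + 1) :=
          sum_le_sum fun S hS => one_abs (fun p hp => hPP p (hsub j S hS hp)) (fun p hp => hper p (hsub j S hS hp))
            hB0 hB1 (fun p hp => hB p (hsub j S hS hp)) M
      _ = M * es (fun p => B * (1 / (p : ℝ))) j PP + (#PP).choose j := by
          rw [sum_add_distrib, ← mul_sum, sum_const, card_powersetCard, nsmul_eq_mul, mul_one]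
          rfl
      _ ≤ M * Q + (#PP).choose j := by
          have := hes (fun p => B * (1 / (p : ℝ))) fun p hp => ⟨by positivity, le_rfl⟩
          have hM : (0 : ℝ) ≤ M := Nat.cast_nonneg _
          have := mul_le_mul_of_nonneg_left this hM
          linarith
  -- step 2
  have s2 : ‖∑ m ∈ range M, ∑ i ∈ range j, es (fun p => w p m) i PP - M * ∑ i ∈ range j, es A i PP‖ ≤
      ∑ i ∈ range j, ((#PP).choose i : ℝ) := by
    rw [sum_comm, mul_sum, ← sum_sub_distrib]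
    refine (norm_sum_le _ _).trans (sum_le_sum fun i _ => ?_)
    unfold es
    rw [sum_comm, mul_sum, ← sum_sub_distrib]
    refine (norm_sum_le _ _).trans ((sum_le_sum fun S hS => one_set (fun p hp => hPP p (hsub i S hS hp))
      (fun p hp => hper p (hsub i S hS hp)) hB0 hB1 (fun p hp => hB p (hsub i S hS hp)) M).trans ?_)
    rw [sum_const, card_powersetCard, nsmul_eq_mul, mul_one]
  -- step 3
  have s3 : ‖(M : ℂ) * (∏ p ∈ PP, (1 + A p) - ∑ i ∈ range j, es A i PP)‖ ≤ M * Q := by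
    rw [norm_mul, Complex.norm_natCast]
    exact mul_le_mul_of_nonneg_left ((expand hA1 j).trans (hes _ fun p hp => ⟨norm_nonneg _, hAB p hp⟩))
      (Nat.cast_nonneg _)
  have e : ∑ m ∈ range M, ∏ p ∈ PP, (1 + w p m) - M * ∏ p ∈ PP, (1 + (∑ a ∈ range p, w p a) / p) =
      ∑ m ∈ range M, (∏ p ∈ PP, (1 + w p m) - ∑ i ∈ range j, es (fun p => w p m) i PP) +
      (∑ m ∈ range M, ∑ i ∈ range j, es (fun p => w p m) i PP - M * ∑ i ∈ range j, es A i PP) -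
      (M : ℂ) * (∏ p ∈ PP, (1 + A p) - ∑ i ∈ range j, es A i PP) := by
    rw [sum_sub_distrib, hA]
    ring
  rw [e]
  have hc : ∑ i ∈ range j, ((#PP).choose i : ℝ) + (#PP).choose j ≤ ((#PP : ℝ) + 1) ^ j := by
    rw [← sum_range_succ]
    exact_mod_cast card_small (#PP) j
  calc _ ≤ (M * Q + (#PP).choose j) + ∑ i ∈ range j, ((#PP).choose i : ℝ) + M * Q :=
        (norm_sub_le _ _).trans (add_le_add ((norm_add_le _ _).trans (add_le_add s1 s2)) s3)
    _ ≤ _ := by linarith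

end

/-- products and exponentials -/
theorem prod_exp {T : Finset ℕ} {A : ℕ → ℂ} (hA : ∀ p ∈ T, ‖1 + A p‖ ≤ 1) (hA1 : ∀ p ∈ T, ‖A p‖ ≤ 1) :
    ‖∏ p ∈ T, (1 + A p) - Complex.exp (∑ p ∈ T, A p)‖ ≤ ∑ p ∈ T, ‖A p‖ ^ 2 := by
  classical
  induction T using Finset.induction_on with
  | empty => simp
  | insert q T hq ih =>
    have ih' := ih (fun p hp => hA p (mem_insert_of_mem hp)) (fun p hp => hA1 p (mem_insert_of_mem hp))
    have h1 := hA q (mem_insert_self _ _)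
    have h2 := hA1 q (mem_insert_self _ _)
    rw [prod_insert hq, sum_insert hq, sum_insert hq, Complex.exp_add]
    have e : (1 + A q) * ∏ p ∈ T, (1 + A p) - Complex.exp (A q) * Complex.exp (∑ p ∈ T, A p) =
        (1 + A q) * (∏ p ∈ T, (1 + A p) - Complex.exp (∑ p ∈ T, A p)) -
          (Complex.exp (A q) - 1 - A q) * Complex.exp (∑ p ∈ T, A p) := by ring
    rw [e]
    have h3 : ‖Complex.exp (A q) - 1 - A q‖ ≤ ‖A q‖ ^ 2 := Complex.norm_exp_sub_one_sub_id_le h2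
    have h4 : ‖Complex.exp (∑ p ∈ T, A p)‖ ≤ 1 := by
      rw [Complex.norm_exp, Real.exp_le_one_iff, Complex.re_sum]
      apply sum_nonpos
      intro p hp
      have h5 := hA p (mem_insert_of_mem hp)
      have h6 := Complex.re_le_norm (1 + A p)
      rw [Complex.add_re, Complex.one_re] at h6
      linarith
    calc _ ≤ ‖(1 + A q) * (∏ p ∈ T, (1 + A p) - Complex.exp (∑ p ∈ T, A p))‖ +
          ‖(Complex.exp (A q) - 1 - A q) * Complex.exp (∑ p ∈ T, A p)‖ := norm_sub_le _ _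
      _ ≤ 1 * ∑ p ∈ T, ‖A p‖ ^ 2 + ‖A q‖ ^ 2 * 1 := by
          rw [norm_mul, norm_mul]
          exact add_le_add (mul_le_mul h1 ih' (norm_nonneg _) zero_le_one)
            (mul_le_mul h3 h4 (norm_nonneg _) (by positivity))
      _ = _ := by ring

end Pool.Agent.X62.EK
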